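import Pool.Agent.Y169.TH.LP

/-!
Vertices of rational polyhedra, and estimates with an error term.
-/

set_option autoImplicit false
set_option linter.overlappingInstances false
set_option linter.unusedSectionVars false
set_option maxHeartbeats 400000

open Pool.Agent.TH152.AC Pool.Agent.Y169.TH

namespace Pool.Agent.H172.EF

section

variable {N : ℕ} {ι : Type} [Fintype ι] {d : Fin N → ℚ} {κ : ℚ} {v : ι → Fin N → ℚ}

/-- **The lower bound with an error term.** -/
theorem lp_lower (hd : ∀ k, 0 < d k) (hv : ∀ y : Fin N → ℚ, (∀ s, 0 ≤ dotL (v s) y) → ∀ k, 0 ≤ y k)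
    {u : Fin N → ℚ} {ρ : ℚ} (hu : ∀ y ∈ Pol d κ v, ρ ≤ dotL u y) :
    ∃ A0 : ℚ, 0 ≤ A0 ∧ ∀ (y : Fin N → ℚ) (m c B : ℚ), 0 ≤ m → 0 ≤ c → 0 ≤ B →
      (∀ s, m - c ≤ dotL (v s) y) → |dotL d y - κ * m| ≤ B → ρ * m - A0 * (c + B) ≤ dotL u y := by
  classical
  let l : ι ⊕ (Bool ⊕ Unit) → ((Fin N → ℚ) × ℚ) →ₗ[ℚ] ℚ := Sum.elim
    (fun s => LinearMap.snd ℚ _ _ - (dotL (v s)).comp (LinearMap.fst ℚ _ _))
    (Sum.elim (fun b => (if b then (1 : ℚ) else -1) • ((dotL d).comp (LinearMap.fst ℚ _ _) -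
      κ • LinearMap.snd ℚ _ _)) fun _ => - LinearMap.snd ℚ _ _)
  obtain ⟨w, hw, hf⟩ := farkas_fin l
    (ρ • LinearMap.snd ℚ (Fin N → ℚ) ℚ - (dotL u).comp (LinearMap.fst ℚ _ _)) (by
    rintro ⟨y, t⟩ hyt
    have h1 : ∀ s, t - dotL (v s) y ≤ 0 := fun s => hyt (Sum.inl s)
    have h2 := hyt (Sum.inr (Sum.inl true))
    have h3 := hyt (Sum.inr (Sum.inl false))
    have h4 : - t ≤ 0 := hyt (Sum.inr (Sum.inr ()))
    simp only [l, Sum.elim_inr, Sum.elim_inl, if_true, LinearMap.smul_apply, LinearMap.sub_apply,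
      LinearMap.comp_apply, LinearMap.fst_apply, LinearMap.snd_apply, smul_eq_mul] at h2 h3
    have h5 : dotL d y = κ * t := by
      simp at h3
      linarith
    change ρ * t - dotL u y ≤ 0
    rcases (show 0 ≤ t by linarith).lt_or_eq with ht | ht
    · have h6 := hu _ (scale_pol ht h5 fun s => by linarith [h1 s])
      rw [map_smul, smul_eq_mul, inv_mul_eq_div, le_div_iff₀ ht] at h6
      linarith
    · have h6 : ∀ k, 0 ≤ y k := hv y fun s => by linarith [h1 s]
      rw [← ht, mul_zero, dotL_apply] at h5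
      have h7 := (Finset.sum_eq_zero_iff_of_nonneg fun k _ => mul_nonneg (hd k).le (h6 k)).1 h5
      have h8 : y = 0 := by
        funext k
        exact (mul_eq_zero.1 (h7 k (Finset.mem_univ k))).resolve_left (hd k).ne'
      rw [h8, map_zero, ← ht]
      simp)
  obtain ⟨c1, hc1⟩ : ∃ c1, c1 = w (Sum.inr (Sum.inl true)) - w (Sum.inr (Sum.inl false)) := ⟨_, rfl⟩
  refine ⟨∑ s, w (Sum.inl s) + |c1|, add_nonneg (Finset.sum_nonneg fun s _ => hw _) (abs_nonneg _),
    fun y m c B hm hc hB h1 h2 => ?_⟩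
  have h3 := hf (y, m)
  rw [Fintype.sum_sum_type, Fintype.sum_sum_type, Fintype.sum_bool] at h3
  simp only [l, Sum.elim_inr, Sum.elim_inl, if_true, LinearMap.smul_apply, LinearMap.sub_apply,
    LinearMap.comp_apply, LinearMap.fst_apply, LinearMap.snd_apply, smul_eq_mul,
    LinearMap.neg_apply, Finset.univ_unique, Finset.sum_singleton] at h3
  have h4 : ∑ s, w (Sum.inl s) * (m - dotL (v s) y) ≤ (∑ s, w (Sum.inl s)) * c := by
    rw [Finset.sum_mul]
    exact Finset.sum_le_sum fun s _ => mul_le_mul_of_nonneg_left (by linarith [h1 s]) (hw _)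
  have h5 : c1 * (dotL d y - κ * m) ≤ |c1| * B := by
    calc c1 * (dotL d y - κ * m) ≤ |c1 * (dotL d y - κ * m)| := le_abs_self _
      _ = |c1| * |dotL d y - κ * m| := abs_mul _ _
      _ ≤ |c1| * B := mul_le_mul_of_nonneg_left h2 (abs_nonneg _)
  have h6 : 0 ≤ w (Sum.inr (Sum.inr ())) * m := mul_nonneg (hw _) hm
  have h7 : 0 ≤ (∑ s, w (Sum.inl s)) * B := mul_nonneg (Finset.sum_nonneg fun s _ => hw _) hB
  have h8 : 0 ≤ |c1| * c := mul_nonneg (abs_nonneg _) hc
  have h9 : ρ * m - dotL u y = ∑ s, w (Sum.inl s) * (m - dotL (v s) y) + c1 * (dotL d y - κ * m) -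
      w (Sum.inr (Sum.inr ())) * m := by
    rw [h3, hc1]
    simp
    ring
  nlinarith

theorem dotL_comm (a b : Fin N → ℚ) : dotL a b = dotL b a := by
  rw [dotL_apply, dotL_apply]
  exact Finset.sum_congr rfl fun k _ => mul_comm _ _

/-- a functional is a dot product -/
theorem exists_dot (f : (Fin N → ℚ) →ₗ[ℚ] ℚ) : ∃ z : Fin N → ℚ, ∀ x, f x = dotL z x := by
  classical
  refine ⟨fun k => f (Pi.single k 1), fun x => ?_⟩
  rw [dotL_apply]
  have h2 : x = ∑ k, (x k) • (Pi.single k (1 : ℚ) : Fin N → ℚ) := by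
    funext i
    rw [Finset.sum_apply, Finset.sum_eq_single i]
    · simp
    · intro k _ hk
      rw [Pi.smul_apply, Pi.single_eq_of_ne (Ne.symm hk), smul_zero]
    · intro h
      exact absurd (Finset.mem_univ _) h
  conv_lhs => rw [h2]
  rw [map_sum]
  refine Finset.sum_congr rfl fun k _ => ?_
  rw [map_smul, smul_eq_mul, mul_comm]

/-- the span of the active constraints -/
def act (d : Fin N → ℚ) (v : ι → Fin N → ℚ) (p : Fin N → ℚ) : Submodule ℚ (Fin N → ℚ) :=
  Submodule.span ℚ ({d} ∪ {x | ∃ s, dotL (v s) p = 1 ∧ x = v s})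

/-- more active constraints -/
theorem improve (hd : ∀ k, 0 < d k) {L : ℚ} (hL : 0 < L)
    (hunit : ∀ k, ∃ s, ∀ y, dotL (v s) y = L * y k) (u : Fin N → ℚ) {p : Fin N → ℚ}
    (hp : p ∈ Pol d κ v) (hne : act d v p ≠ ⊤) :
    ∃ p' ∈ Pol d κ v, dotL u p' ≤ dotL u p ∧
      Module.finrank ℚ (act d v p) < Module.finrank ℚ (act d v p') := by
  classical
  obtain ⟨f, hf0, hf⟩ := Submodule.exists_le_ker_of_lt_top _ (lt_top_iff_ne_top.2 hne)
  obtain ⟨z0, hz0⟩ := exists_dot f
  -- the sign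
  obtain ⟨z, hzne, hzW, hzu⟩ : ∃ z : Fin N → ℚ, z ≠ 0 ∧ (∀ x ∈ act d v p, dotL x z = 0) ∧
      dotL u z ≤ 0 := by
    have h0 : z0 ≠ 0 := by
      rintro rfl
      apply hf0
      ext x
      simp [hz0, dotL_apply]
    have h1 : ∀ x ∈ act d v p, dotL x z0 = 0 := by
      intro x hx
      rw [dotL_comm, ← hz0]
      exact hf hx
    rcases le_total (dotL u z0) 0 with h | h
    · exact ⟨z0, h0, h1, h⟩
    · refine ⟨-z0, neg_ne_zero.2 h0, fun x hx => ?_, ?_⟩
      · rw [map_neg, h1 x hx, neg_zero]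
      · rw [map_neg]
        linarith
  have hd0 : dotL d z = 0 := hzW d (Submodule.subset_span (Or.inl rfl))
  obtain ⟨k, hk⟩ : ∃ k, z k < 0 := by
    by_contra hcon
    push Not at hcon
    apply hzne
    funext k
    rw [dotL_apply] at hd0
    have h1 := (Finset.sum_eq_zero_iff_of_nonneg fun k _ => mul_nonneg (hd k).le (hcon k)).1 hd0 k
      (Finset.mem_univ k)
    exact (mul_eq_zero.1 h1).resolve_left (hd k).ne'
  obtain ⟨s0, hs0⟩ := hunit k
  obtain ⟨J, hJ⟩ : ∃ J : Finset ι, J = Finset.univ.filter fun s => dotL (v s) z < 0 := ⟨_, rfl⟩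
  have hJne : J.Nonempty := by
    refine ⟨s0, ?_⟩
    rw [hJ, Finset.mem_filter]
    refine ⟨Finset.mem_univ _, ?_⟩
    rw [hs0]
    exact mul_neg_of_pos_of_neg hL hk
  obtain ⟨s1, hs1, hmin⟩ := Finset.exists_min_image J
    (fun s => (dotL (v s) p - 1) / (- dotL (v s) z)) hJne
  obtain ⟨t, ht⟩ : ∃ t, t = (dotL (v s1) p - 1) / (- dotL (v s1) z) := ⟨_, rfl⟩
  rw [← ht] at hmin
  have hs1z : dotL (v s1) z < 0 := by
    rw [hJ, Finset.mem_filter] at hs1
    exact hs1.2
  have ht0 : 0 ≤ t := by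
    rw [ht]
    exact div_nonneg (by linarith [hp.2 s1]) (by linarith)
  have hp1 : dotL (v s1) (p + t • z) = 1 := by
    rw [map_add, map_smul, smul_eq_mul, ht]
    have h1 : dotL (v s1) z ≠ 0 := hs1z.ne
    have h2 : (dotL (v s1) p - 1) / (- dotL (v s1) z) * dotL (v s1) z =
        -(dotL (v s1) p - 1) := by
      rw [div_mul_eq_mul_div, div_neg, mul_div_assoc, div_self h1, mul_one]
    rw [h2]
    ring
  refine ⟨p + t • z, ⟨?_, fun s => ?_⟩, ?_, ?_⟩
  · rw [map_add, map_smul, hd0, hp.1, smul_zero, add_zero]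
  · rw [map_add, map_smul, smul_eq_mul]
    by_cases hs : dotL (v s) z < 0
    · have h1 := hmin s (by rw [hJ, Finset.mem_filter]; exact ⟨Finset.mem_univ _, hs⟩)
      rw [le_div_iff₀ (by linarith)] at h1
      linarith
    · push Not at hs
      have h1 := mul_nonneg ht0 hs
      linarith [hp.2 s]
  · rw [map_add, map_smul, smul_eq_mul]
    have h1 := mul_nonneg ht0 (neg_nonneg.2 hzu)
    linarith
  · apply Submodule.finrank_lt_finrank_of_lt
    rw [lt_iff_le_and_ne]
    constructor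
    · refine Submodule.span_mono ?_
      rintro x (rfl | ⟨s, hs, rfl⟩)
      · exact Or.inl rfl
      · right
        refine ⟨s, ?_, rfl⟩
        rw [map_add, map_smul, hzW (v s) (Submodule.subset_span (Or.inr ⟨s, hs, rfl⟩)), hs,
          smul_zero, add_zero]
    · intro heq
      have h1 : v s1 ∈ act d v (p + t • z) := Submodule.subset_span (Or.inr ⟨s1, hp1, rfl⟩)
      rw [← heq] at h1
      have h2 := hzW _ h1
      linarith

/-- **The vertices.** -/
theorem exists_vertex (hd : ∀ k, 0 < d k) {L : ℚ} (hL : 0 < L)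
    (hunit : ∀ k, ∃ s, ∀ y, dotL (v s) y = L * y k) (u : Fin N → ℚ) {y : Fin N → ℚ}
    (hy : y ∈ Pol d κ v) :
    ∃ p ∈ Pol d κ v, dotL u p ≤ dotL u y ∧ act d v p = ⊤ := by
  classical
  by_contra hcon
  push Not at hcon
  have key : ∀ r : ℕ, ∃ p ∈ Pol d κ v, dotL u p ≤ dotL u y ∧ r ≤ Module.finrank ℚ (act d v p) := by
    intro r
    induction r with
    | zero => exact ⟨y, hy, le_rfl, Nat.zero_le _⟩
    | succ r ih =>
      obtain ⟨p, hp, hpu, hr⟩ := ih
      obtain ⟨p', hp', hpu', hr'⟩ := improve hd hL hunit u hp (hcon p hp hpu)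
      exact ⟨p', hp', hpu'.trans hpu, by omega⟩
  obtain ⟨p, -, -, hr⟩ := key (N + 1)
  have h1 := Submodule.finrank_le (act d v p)
  rw [Module.finrank_fin_fun] at h1
  omega

end

section

variable {N : ℕ} {ι : Type} [Fintype ι]

/-- **The denominators of the vertices.** -/
theorem vertex_int {dn : Fin N → ℕ} {δ L : ℕ} (hN : 0 < N) (hδ : ∀ k, dn k ≤ δ)
    (hd : ∀ k, 1 ≤ dn k) {vn : ι → Fin N → ℕ} (hv : ∀ s k, vn s k ≤ L) {κ : ℤ} {p : Fin N → ℚ}
    (hp : p ∈ Pol (fun k => (dn k : ℚ)) (κ : ℚ) fun s k => (vn s k : ℚ))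
    (hact : act (fun k => (dn k : ℚ)) (fun s k => (vn s k : ℚ)) p = ⊤) {D : ℕ}
    (hD : ∀ i, 1 ≤ i → i ≤ N.factorial * δ * L ^ (N - 1) → i ∣ D) :
    ∃ w : Fin N → ℤ, ∀ k, (w k : ℚ) = D * p k := by
  classical
  let A : Type := {s : ι // dotL (fun k => (vn s k : ℚ)) p = 1}
  let gn : Option A → Fin N → ℕ := fun o => o.elim dn fun s => vn s.1
  let g : Option A → Fin N → ℚ := fun o k => (gn o k : ℚ)
  have hd0 : g none ≠ 0 := by
    intro h0
    have h1 := congrFun h0 ⟨0, hN⟩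
    have h2 : ((dn ⟨0, hN⟩ : ℕ) : ℚ) = 0 := h1
    have h3 := hd ⟨0, hN⟩
    have h4 : dn ⟨0, hN⟩ = 0 := by exact_mod_cast h2
    omega
  obtain ⟨b, -, hb1, hb2, hb3⟩ := exists_linearIndepOn_extension (K := ℚ) (v := g) (s := {none})
    (t := Set.univ) (LinearIndepOn.singleton (R := ℚ) hd0) (Set.subset_univ _)
  have htop : Submodule.span ℚ (g '' b) = ⊤ := by
    rw [eq_top_iff, ← hact]
    unfold act
    rw [Submodule.span_le]
    rintro x (rfl | ⟨s, hs, rfl⟩)
    · exact hb2 ⟨none, Set.mem_univ _, rfl⟩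
    · exact hb2 ⟨some ⟨s, hs⟩, Set.mem_univ _, rfl⟩
  have : Fintype b := Fintype.ofFinite b
  have hcard : Fintype.card b = N := by
    have h1 : LinearIndependent ℚ fun x : b => g x.1 := hb3
    have h2 := finrank_span_eq_card h1
    have h3 : Set.range (fun x : b => g x.1) = g '' b := by
      rw [Set.image_eq_range]
    rw [h3, htop, finrank_top, Module.finrank_fin_fun] at h2
    exact h2.symm
  let e : Fin N ≃ b := (Fintype.equivFinOfCardEq hcard).symm
  let M : Matrix (Fin N) (Fin N) ℤ := Matrix.of fun i k => (gn (e i).1 k : ℤ)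
  let MQ : Matrix (Fin N) (Fin N) ℚ := M.map (Int.castRingHom ℚ)
  have hMQ : ∀ i k, MQ i k = g (e i).1 k := by
    intro i k
    simp [MQ, M, g]
  have hdet : MQ.det = (M.det : ℚ) := by
    have h1 := RingHom.map_det (Int.castRingHom ℚ) M
    rw [RingHom.mapMatrix_apply] at h1
    exact h1.symm
  have hdet0 : M.det ≠ 0 := by
    intro h0
    have h1 : LinearIndependent ℚ MQ.row := by
      have h2 : LinearIndependent ℚ fun x : b => g x.1 := hb3
      have h3 := h2.comp e e.injective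
      have h4 : MQ.row = (fun x : b => g x.1) ∘ e := by
        funext i k
        exact hMQ i k
      rw [h4]
      exact h3
    have h2 := (Matrix.isUnit_iff_isUnit_det _).1 (Matrix.linearIndependent_rows_iff_isUnit.1 h1)
    rw [hdet, h0] at h2
    simp at h2
  -- the bound for the determinant
  obtain ⟨i0, hi0⟩ : ∃ i0, (e i0).1 = none := by
    refine ⟨e.symm ⟨none, hb1 rfl⟩, ?_⟩
    rw [e.apply_symm_apply]
  have huniq : ∀ i, (e i).1 = none → i = i0 := by
    intro i hi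
    apply e.injective
    apply Subtype.ext
    rw [hi, hi0]
  obtain ⟨bd, hbd⟩ : ∃ bd : Fin N → ℤ, bd = fun i => if i = i0 then (δ : ℤ) else L := ⟨_, rfl⟩
  have hbd1 : ∀ i k, |M i k| ≤ bd i := by
    intro i k
    have h1 : M i k = (gn (e i).1 k : ℤ) := rfl
    rw [h1, hbd, abs_of_nonneg (by positivity)]
    dsimp only
    split_ifs with h
    · rw [h, hi0]
      change ((dn k : ℕ) : ℤ) ≤ δ
      exact_mod_cast hδ k
    · rcases ho : (e i).1 with _ | s
      · exact absurd (huniq i ho) h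
      · change ((vn s.1 k : ℕ) : ℤ) ≤ L
        exact_mod_cast hv s.1 k
  have hprod : ∏ i, bd i = δ * L ^ (N - 1) := by
    rw [← Finset.mul_prod_erase Finset.univ bd (Finset.mem_univ i0), hbd]
    dsimp only
    rw [if_pos rfl]
    congr 1
    rw [Finset.prod_congr rfl (g := fun _ => (L : ℤ)) fun i hi => by
      rw [if_neg (Finset.ne_of_mem_erase hi)]]
    rw [Finset.prod_const, Finset.card_erase_of_mem (Finset.mem_univ _), Finset.card_univ,
      Fintype.card_fin]
  have hle : |M.det| ≤ (N.factorial * δ * L ^ (N - 1) : ℕ) := by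
    rw [Matrix.det_apply']
    refine (Finset.abs_sum_le_sum_abs _ _).trans ?_
    have h1 : ∀ σ : Equiv.Perm (Fin N), |(Equiv.Perm.sign σ : ℤ) * ∏ i, M (σ i) i| ≤
        δ * L ^ (N - 1) := by
      intro σ
      rw [abs_mul]
      have h2 : |((Equiv.Perm.sign σ : ℤˣ) : ℤ)| = 1 := Int.isUnit_iff_abs_eq.1 (Units.isUnit _)
      rw [h2, one_mul, Finset.abs_prod]
      calc ∏ i, |M (σ i) i| ≤ ∏ i, bd (σ i) :=
            Finset.prod_le_prod (fun i _ => abs_nonneg _) fun i _ => hbd1 _ _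
        _ = ∏ i, bd i := Equiv.prod_comp σ bd
        _ = _ := hprod
    calc ∑ σ : Equiv.Perm (Fin N), |((Equiv.Perm.sign σ : ℤˣ) : ℤ) * ∏ i, M (σ i) i| ≤
        ∑ σ : Equiv.Perm (Fin N), ((δ : ℤ) * L ^ (N - 1)) := Finset.sum_le_sum fun σ _ => h1 σ
      _ = _ := by
        rw [Finset.sum_const, Finset.card_univ, Fintype.card_perm, Fintype.card_fin, nsmul_eq_mul]
        push_cast
        ring
  have hdvd : M.det.natAbs ∣ D := by
    refine hD _ (Int.natAbs_pos.2 hdet0) ?_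
    have h1 : ((M.det.natAbs : ℕ) : ℤ) ≤ (N.factorial * δ * L ^ (N - 1) : ℕ) := by
      rw [Int.natCast_natAbs]
      exact hle
    exact_mod_cast h1
  obtain ⟨q, hq⟩ : M.det ∣ (D : ℤ) := Int.natAbs_dvd.1 (by exact_mod_cast hdvd)
  -- Cramer's rule
  obtain ⟨r, hr⟩ : ∃ r : Fin N → ℤ, r = fun i => if i = i0 then κ else 1 := ⟨_, rfl⟩
  have hMp : MQ.mulVec p = fun i => (r i : ℚ) := by
    funext i
    have h1 : MQ.mulVec p i = dotL (g (e i).1) p := by
      rw [Matrix.mulVec, dotProduct, dotL_apply]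
      exact Finset.sum_congr rfl fun k _ => by rw [hMQ]
    rw [h1, hr]
    dsimp only
    split_ifs with h
    · rw [h, hi0]
      exact hp.1
    · rcases ho : (e i).1 with _ | s
      · exact absurd (huniq i ho) h
      · rw [Int.cast_one]
        exact s.2
  have hcr : ∀ k, (M.det : ℚ) * p k = ((M.adjugate.mulVec r k : ℤ) : ℚ) := by
    intro k
    have h1 : MQ.adjugate.mulVec (MQ.mulVec p) = MQ.det • p := by
      rw [Matrix.mulVec_mulVec, Matrix.adjugate_mul, Matrix.smul_mulVec, Matrix.one_mulVec]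
    have h2 := congrFun h1 k
    rw [hMp, Pi.smul_apply, smul_eq_mul, hdet] at h2
    rw [← h2]
    have h3 : MQ.adjugate = M.adjugate.map (Int.castRingHom ℚ) := by
      have h4 := RingHom.map_adjugate (Int.castRingHom ℚ) M
      rw [RingHom.mapMatrix_apply, RingHom.mapMatrix_apply] at h4
      exact h4.symm
    rw [h3, Matrix.mulVec, Matrix.mulVec, dotProduct, dotProduct]
    push_cast
    rfl
  refine ⟨fun k => q * M.adjugate.mulVec r k, fun k => ?_⟩
  push_cast
  rw [← hcr k]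
  have h1 : (D : ℚ) = M.det * q := by exact_mod_cast hq
  rw [h1]
  ring

end

end Pool.Agent.H172.EF
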