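import Pool.Agent.H172.EF.Ver
import Pool.Agent.Y169.TH.Kod

/-!
The sections given by lattice points.
-/

set_option autoImplicit false
set_option linter.overlappingInstances false
set_option linter.unusedSectionVars false
set_option maxHeartbeats 400000

open FF MvPolynomial Pool.Agent.W603.LV Pool.Agent.W602.GT Pool.Agent.W602.Cov
open Pool.Agent.W602.Cov.G Pool.Agent.TH152.AC Pool.Agent.TH122.AB Pool.Agent.Y169.CH
open Pool.Agent.Y169.TH

namespace Pool.Agent.H172.EF

section

variable {K : Type} [Field K] [Algebra ℂ K]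

/-- roots of independent elements -/
theorem ind_of_pow {h E : ℕ} (hE : 0 < E) {r : Fin h → K}
    (H : AlgebraicIndependent ℂ fun b => r b ^ E) : AlgebraicIndependent ℂ r := by
  classical
  obtain ⟨A, hA⟩ : ∃ A, A = IntermediateField.adjoin ℂ (Set.range r) := ⟨_, rfl⟩
  have hr : ∀ b, r b ∈ A := fun b => by
    rw [hA]
    exact IntermediateField.subset_adjoin ℂ _ ⟨b, rfl⟩
  obtain ⟨r', hr'⟩ : ∃ r' : Fin h → A, r' = fun b => ⟨r b, hr b⟩ := ⟨_, rfl⟩
  have hval : ∀ b, A.val (r' b) = r b := fun b => by rw [hr']; rfl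
  have htop : IntermediateField.adjoin ℂ (Set.range r') = ⊤ := by
    apply IntermediateField.lift_injective A
    rw [IntermediateField.lift_adjoin, IntermediateField.lift_top]
    have h1 : (Subtype.val '' Set.range r' : Set K) = Set.range r := by
      rw [← Set.range_comp]
      congr 1
      funext b
      exact hval b
    rw [h1, hA]
  have hfd : FiniteDimensional (IntermediateField.adjoin ℂ (Set.range r')) A := by
    rw [htop]
    exact Module.finite_of_finrank_pos (by rw [IntermediateField.finrank_top]; exact one_pos)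
  have h1 : Algebra.IsAlgebraic (IntermediateField.adjoin ℂ (Set.range r')) A :=
    Algebra.IsAlgebraic.of_finite _ _
  have h2 : Algebra.IsAlgebraic (Algebra.adjoin ℂ (Set.range r')) A := by
    open scoped IntermediateField.algebraAdjoinAdjoin in
    exact IsFractionRing.comap_isAlgebraic_iff.2 h1
  have h3 : AlgebraicIndependent ℂ fun b => r' b ^ E := by
    have h4 : (fun b => r b ^ E) = A.val ∘ fun b => r' b ^ E := by
      funext b
      rw [Function.comp_apply, map_pow, hval]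
    rw [h4] at H
    exact H.of_comp A.val
  have h5 : IsTranscendenceBasis ℂ r' :=
    Algebra.IsAlgebraic.isTranscendenceBasis_of_le_trdeg_of_finite ℂ r' h3.cardinalMk_le_trdeg
  have h6 := h5.1.map' (f := A.val) A.val.injective
  have h7 : (A.val ∘ r') = r := by
    funext b
    exact hval b
  rwa [h7] at h6

/-- the exponents of the products -/
noncomputable def mx {h j : ℕ} (s : Sym (Fin (h + 1)) j) : Fin h →₀ ℕ :=
  Finsupp.equivFunOnFinite.symm fun b => (s : Multiset (Fin (h + 1))).count b.succ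

theorem mx_inj {h j : ℕ} : Function.Injective (mx (h := h) (j := j)) := by
  intro s t hst
  apply Sym.coe_injective
  have h1 : ∀ l : Fin h, (s : Multiset (Fin (h + 1))).count l.succ =
      (t : Multiset (Fin (h + 1))).count l.succ := by
    intro l
    have h2 := DFunLike.congr_fun hst l
    simpa only [mx, Finsupp.coe_equivFunOnFinite_symm] using h2
  have hc : ∀ u : Sym (Fin (h + 1)) j, (u : Multiset (Fin (h + 1))).count 0 +
      ∑ l : Fin h, (u : Multiset (Fin (h + 1))).count l.succ = j := by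
    intro u
    rw [← Fin.sum_univ_succ fun l => (u : Multiset (Fin (h + 1))).count l]
    rw [Multiset.sum_count_eq_card (fun a _ => Finset.mem_univ a), Sym.card_coe]
  ext l
  refine Fin.cases ?_ h1 l
  have h3 := hc s
  have h4 := hc t
  rw [Finset.sum_congr rfl fun l _ => h1 l] at h3
  omega

theorem sym_eq {h : ℕ} {f : Fin (h + 1) → K} (h0 : f 0 ≠ 0) (t : Multiset (Fin (h + 1))) :
    (t.map f).prod = f 0 ^ t.card * ∏ b : Fin h, (f b.succ / f 0) ^ t.count b.succ := by
  classical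
  induction t using Multiset.induction_on with
  | empty => simp
  | cons b t ih =>
    rw [Multiset.map_cons, Multiset.prod_cons, ih, Multiset.card_cons, pow_succ]
    refine Fin.cases ?_ (fun l => ?_) b
    · have h2 : ∀ l : Fin h, ((0 : Fin (h + 1)) ::ₘ t).count l.succ = t.count l.succ :=
        fun l => Multiset.count_cons_of_ne (Fin.succ_ne_zero l) t
      simp only [h2]
      ring
    · rw [← Finset.mul_prod_erase Finset.univ _ (Finset.mem_univ l),
        ← Finset.mul_prod_erase Finset.univ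
          (fun l' : Fin h => (f l'.succ / f 0) ^ (l.succ ::ₘ t).count l'.succ)
          (Finset.mem_univ l)]
      rw [Multiset.count_cons_self, pow_succ]
      have h2 : ∀ l' ∈ Finset.univ.erase l, (f l'.succ / f 0) ^ (l.succ ::ₘ t).count l'.succ =
          (f l'.succ / f 0) ^ t.count l'.succ := by
        intro l' hl'
        rw [Multiset.count_cons_of_ne]
        intro h
        exact (Finset.ne_of_mem_erase hl') (Fin.succ_injective _ h)
      rw [Finset.prod_congr rfl h2]
      field_simp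

/-- the products of elements with independent ratios -/
theorem sym_indep {h : ℕ} {f : Fin (h + 1) → K} (h0 : f 0 ≠ 0)
    (hind : AlgebraicIndependent ℂ fun b : Fin h => f b.succ / f 0) (j : ℕ) :
    LinearIndependent ℂ fun s : Sym (Fin (h + 1)) j =>
      ((s : Multiset (Fin (h + 1))).map f).prod := by
  classical
  have h2 : LinearIndependent ℂ (fun s : Sym (Fin (h + 1)) j =>
      (monomial (mx s) (1 : ℂ) : MvPolynomial (Fin h) ℂ)) := by
    have h3 := (basisMonomials (Fin h) ℂ).linearIndependent.comp _ (mx_inj (h := h) (j := j))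
    have h4 : (fun s : Sym (Fin (h + 1)) j =>
      (monomial (mx s) (1 : ℂ) : MvPolynomial (Fin h) ℂ)) =
      (basisMonomials (Fin h) ℂ) ∘ mx (h := h) (j := j) := by
      funext s
      rw [Function.comp_apply, coe_basisMonomials]
    rw [h4]
    exact h3
  have h3 := h2.map' (aeval fun b : Fin h => f b.succ / f 0).toLinearMap
    (LinearMap.ker_eq_bot.2 hind)
  have h4 := h3.map' (LinearMap.mulLeft ℂ (f 0 ^ j))
    (LinearMap.ker_eq_bot.2 (mul_right_injective₀ (pow_ne_zero _ h0)))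
  have h5 : (fun s : Sym (Fin (h + 1)) j => ((s : Multiset (Fin (h + 1))).map f).prod) =
      (LinearMap.mulLeft ℂ (f 0 ^ j)) ∘ (aeval fun b : Fin h => f b.succ / f 0).toLinearMap ∘
        fun s : Sym (Fin (h + 1)) j => (monomial (mx s) (1 : ℂ) : MvPolynomial (Fin h) ℂ) := by
    funext s
    rw [Function.comp_apply, Function.comp_apply, AlgHom.toLinearMap_apply,
      LinearMap.mulLeft_apply, aeval_monomial, map_one, one_mul,
      Finsupp.prod_fintype _ _ (fun _ => pow_zero _), sym_eq h0, Sym.card_coe]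
    rfl
  rw [h5]
  exact h4

end

section

variable {K : Type} [Field K] [Algebra ℂ K] {N : ℕ}

theorem asec_iff {m : ℕ} {ω : (Fin N → Derivation ℂ K K) → K} :
    ASec N {1} m 1 ω ↔ IsPluri m ω ∧ ∀ P : Place ℂ K, Divisorial N P →
      ∀ D : Fin N → Derivation ℂ K K, (∀ c, DerReg P (D c)) → Ge P 0 (ω D) := by
  refine ⟨fun h => ⟨h.1, fun P hP D hD => (h.2 P hP D hD).imp id ?_⟩,
    fun h => ⟨h.1, fun P hP D hD => (h.2 P hP D hD).imp id fun h => ⟨1, by simp, one_ne_zero, ?_⟩⟩⟩
  · rintro ⟨s, hs, -, hle⟩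
    rw [Finset.mem_singleton] at hs
    subst hs
    rwa [P.ord_one, mul_zero] at hle
  · rwa [P.ord_one, mul_zero]

theorem asec_mul {m m' : ℕ} {ω ω' : (Fin N → Derivation ℂ K K) → K} (h : ASec N {1} m 1 ω)
    (h' : ASec N {1} m' 1 ω') : ASec N {1} (m + m') 1 fun D => ω D * ω' D := by
  rw [asec_iff] at h h' ⊢
  refine ⟨fun A D => ?_, fun P hP D hD => ?_⟩
  · dsimp only
    rw [h.1 A D, h'.1 A D, pow_add]
    ring
  · simpa using (h.2 P hP D hD).mul (h'.2 P hP D hD)

theorem asec_unit : ASec N {1} 0 1 fun _ : Fin N → Derivation ℂ K K => (1 : K) := by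
  rw [asec_iff]
  refine ⟨fun A D => ?_, fun P hP D hD => Ge.one⟩
  rw [pow_zero, one_mul]

theorem asec_pow {m : ℕ} {ω : (Fin N → Derivation ℂ K K) → K} (h : ASec N {1} m 1 ω) (j : ℕ) :
    ASec N {1} (j * m) 1 fun D => ω D ^ j := by
  induction j with
  | zero => simpa using (asec_unit (K := K) (N := N))
  | succ j ih =>
    have h1 := asec_mul ih h
    rw [Nat.succ_mul]
    simpa only [pow_succ] using h1

theorem asec_prod {ι : Type} {m : ℕ} {ω : ι → (Fin N → Derivation ℂ K K) → K}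
    (h : ∀ b, ASec N {1} m 1 (ω b)) (s : Multiset ι) :
    ASec N {1} (s.card * m) 1 fun D => (s.map fun b => ω b D).prod := by
  induction s using Multiset.induction_on with
  | empty => simpa using (asec_unit (K := K) (N := N))
  | cons a s ih =>
    have h1 := asec_mul (h a) ih
    have h2 : (a ::ₘ s).card * m = m + s.card * m := by
      rw [Multiset.card_cons, Nat.succ_mul, add_comm]
    rw [h2]
    simpa only [Multiset.map_cons, Multiset.prod_cons] using h1

end

section

variable {d : ℕ} {Φ : Arr (d + 1)} {K : Type} [Field K] [Algebra ℂ K] {R : ℕ} (C : Cv Φ K R)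

/-- the section of a lattice point -/
noncomputable def sct (D : ℕ) (w : Fin (d + 2) → ℕ) (Dv : Fin (d + 1) → Derivation ℂ K K) : K :=
  bw Dv C.x ^ D * ∏ k, aeval C.x (Φ.F k) ^ ((w k : ℤ) - D)

/-- the degree -/
theorem lat_deg {D : ℕ} {w : Fin (d + 2) → ℕ} (hw : Lat C.M C.a Φ.dF D w) (α : ℤ)
    (v : Fin (d + 2) → ℕ) :
    ∑ k, ((w k : ℤ) - D) * (Φ.dF k * α + v k) =
      - (D * ((d + 2) * α)) + ∑ k, (v k : ℤ) * w k - D * ∑ k, (v k : ℤ) := by
  have h1 := hw.1
  have h3 : ∑ k, ((w k : ℤ) - D) * (Φ.dF k * α + v k) =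
      α * (∑ k, (Φ.dF k : ℤ) * w k) + ∑ k, (v k : ℤ) * w k -
      D * α * ∑ k, (Φ.dF k : ℤ) - D * ∑ k, (v k : ℤ) := by
    rw [Finset.mul_sum, Finset.mul_sum, Finset.mul_sum, ← Finset.sum_add_distrib,
      ← Finset.sum_sub_distrib, ← Finset.sum_sub_distrib]
    exact Finset.sum_congr rfl fun k _ => by ring
  rw [h3, h1]
  push_cast
  ring

theorem sct_ne {D : ℕ} {w : Fin (d + 2) → ℕ} {D0 : Fin (d + 1) → Derivation ℂ K K}
    (hbw : bw D0 C.x = 1) : sct C D w D0 ≠ 0 := by
  unfold sct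
  rw [hbw, one_pow, one_mul]
  exact Finset.prod_ne_zero_iff.2 fun k _ => zpow_ne_zero _ (C.F_ne k)

theorem sct_ord {D : ℕ} {w : Fin (d + 2) → ℕ} (hw : Lat C.M C.a Φ.dF D w)
    {D0 : Fin (d + 1) → Derivation ℂ K K} (hbw : bw D0 C.x = 1) {P : Place ℂ K} {α : ℤ}
    {v : Fin (d + 2) → ℕ} (hdat : Dat P Φ.F Φ.dF C.x α v) :
    P.ord (sct C D w D0) =
      - (D * ((d + 2) * α)) + ∑ k, (v k : ℤ) * w k - D * ∑ k, (v k : ℤ) := by
  unfold sct
  rw [hbw, one_pow, one_mul, ord_prod' P Finset.univ _ fun k _ => zpow_ne_zero _ (C.F_ne k),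
    ← lat_deg C hw]
  exact Finset.sum_congr rfl fun k _ => by rw [P.ord_zpow, hdat.hv]

/-- the sections are regular -/
theorem sct_sec {D : ℕ} {w : Fin (d + 2) → ℕ} (hw : Lat C.M C.a Φ.dF D w) :
    ASec (d + 1) {1} D 1 (sct C D w) := by
  classical
  rw [asec_iff]
  refine ⟨fun A Dv => ?_, fun P _ Dv hDv => ?_⟩
  · unfold sct
    rw [(bwa (d + 1) K).2.1 A Dv C.x, mul_pow]
    ring
  · obtain ⟨α, v, hα, hdat⟩ := C.exists_dat P
    have h1 := bw_reg_ord Φ.hS Φ.hh hdat hDv
    have hEord : P.ord (∏ k, aeval C.x (Φ.F k) ^ ((w k : ℤ) - D)) =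
        - (D * ((d + 2) * α)) + ∑ k, (v k : ℤ) * w k - D * ∑ k, (v k : ℤ) := by
      rw [ord_prod' P Finset.univ _ fun k _ => zpow_ne_zero _ (C.F_ne k), ← lat_deg C hw]
      exact Finset.sum_congr rfl fun k _ => by rw [P.ord_zpow, hdat.hv]
    have h2 := (h1.pow D).mul (ge_ord P (∏ k, aeval C.x (Φ.F k) ^ ((w k : ℤ) - D)))
    refine h2.mono ?_
    rw [hEord]
    by_cases hv : v = 0
    · rw [if_pos hv, hv]
      simp only [Pi.zero_apply, Nat.cast_zero, zero_mul, Finset.sum_const_zero, mul_zero, sub_zero,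
        add_zero]
      push_cast
      apply le_of_eq
      ring
    · rw [if_neg hv]
      have h5 := hw.2 v (C.adm hdat hv)
      have h6 : (D : ℤ) ≤ ∑ k, (v k : ℤ) * w k := by exact_mod_cast h5
      push_cast
      nlinarith

/-- the ratios -/
theorem ratio_ind {D : ℕ} {h : ℕ} {w : Fin (h + 1) → Fin (d + 2) → ℕ}
    (hw : ∀ b, Lat C.M C.a Φ.dF D (w b))
    (hlin : LinearIndependent ℚ fun (b : Fin h) (k : Fin (d + 2)) => (w b.succ k : ℚ) - w 0 k)
    {D0 : Fin (d + 1) → Derivation ℂ K K} (hbw : bw D0 C.x = 1) :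
    AlgebraicIndependent ℂ fun b : Fin h => sct C D (w b.succ) D0 / sct C D (w 0) D0 := by
  classical
  obtain ⟨δ, hδ⟩ : ∃ δ : Fin h → Fin (d + 2) → ℤ, δ = fun b k => (w b.succ k : ℤ) - w 0 k :=
    ⟨_, rfl⟩
  have hδsum : ∀ b, ∑ k, (Φ.dF k : ℤ) * δ b k = 0 := by
    intro b
    have h1 := (hw b.succ).1
    have h2 := (hw 0).1
    have h4 : ∑ k, (Φ.dF k : ℤ) * δ b k =
        ∑ k, (Φ.dF k : ℤ) * w b.succ k - ∑ k, (Φ.dF k : ℤ) * w 0 k := by
      rw [← Finset.sum_sub_distrib]
      refine Finset.sum_congr rfl fun k _ => ?_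
      rw [hδ]
      ring
    rw [h4, h1, h2, sub_self]
  refine ind_of_pow Φ.E_pos ?_
  have hratio : ∀ b : Fin h, (sct C D (w b.succ) D0 / sct C D (w 0) D0) ^ Φ.E =
      ∏ i : Fin (d + 1), C.Y i ^ ((Φ.dF i.succ : ℤ) * δ b i.succ) := by
    intro b
    unfold sct
    rw [hbw, one_pow, one_mul, one_mul, ← Finset.prod_div_distrib, ← Finset.prod_pow]
    have h1 : ∀ k, (aeval C.x (Φ.F k) ^ ((w b.succ k : ℤ) - D) /
        aeval C.x (Φ.F k) ^ ((w 0 k : ℤ) - D)) ^ Φ.E =
        aeval C.x (Φ.G k) ^ ((Φ.dF k : ℤ) * δ b k) := by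
      intro k
      rw [← zpow_sub₀ (C.F_ne k), Cv.ae_G, ← zpow_natCast (aeval C.x (Φ.F k)), ← zpow_mul,
        ← zpow_natCast, ← zpow_mul]
      congr 1
      have h2 : (Φ.dF k : ℤ) * Φ.ee k = Φ.E := by exact_mod_cast Φ.d_ee k
      rw [hδ, ← h2]
      ring
    rw [Finset.prod_congr rfl fun k _ => h1 k, Fin.prod_univ_succ]
    have h2 : (Φ.dF 0 : ℤ) * δ b 0 = - ∑ i : Fin (d + 1), (Φ.dF i.succ : ℤ) * δ b i.succ := by
      have h3 := hδsum b
      rw [Fin.sum_univ_succ] at h3
      linarith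
    rw [h2, ← Finset.sum_neg_distrib, ← prod_zpow_sum (C.G_ne 0), ← Finset.prod_mul_distrib]
    refine Finset.prod_congr rfl fun i _ => ?_
    unfold Cv.Y
    rw [div_zpow, zpow_neg, div_eq_mul_inv, mul_comm]
  rw [funext hratio]
  refine laurent_ind C.bas_Y.1 C.Y_ne _ ?_
  rw [Fintype.linearIndependent_iff]
  intro g hg
  have h1 : ∀ i : Fin (d + 1), ∑ b, g b * (δ b i.succ : ℚ) = 0 := by
    intro i
    have h2 := congrFun hg i
    rw [Finset.sum_apply] at h2
    simp only [Pi.smul_apply, smul_eq_mul, Pi.zero_apply] at h2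
    push_cast at h2
    have h3 : (Φ.dF i.succ : ℚ) * ∑ b, g b * (δ b i.succ : ℚ) = 0 := by
      rw [Finset.mul_sum, ← h2]
      exact Finset.sum_congr rfl fun b _ => by ring
    exact (mul_eq_zero.1 h3).resolve_left (by exact_mod_cast (Φ.hd _).ne')
  have h0 : ∑ b, g b * (δ b 0 : ℚ) = 0 := by
    have h3 : (Φ.dF 0 : ℚ) * ∑ b, g b * (δ b 0 : ℚ) = 0 := by
      have h4 : ∀ b, (Φ.dF 0 : ℚ) * δ b 0 = - ∑ i : Fin (d + 1), (Φ.dF i.succ : ℚ) * δ b i.succ := by
        intro b
        have h5 := hδsum b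
        rw [Fin.sum_univ_succ] at h5
        have h6 : (((Φ.dF 0 : ℤ) * δ b 0 + ∑ i : Fin (d + 1), (Φ.dF i.succ : ℤ) * δ b i.succ : ℤ) : ℚ)
            = 0 := by
          rw [h5]
          rfl
        push_cast at h6
        linarith
      calc (Φ.dF 0 : ℚ) * ∑ b, g b * (δ b 0 : ℚ) = ∑ b, g b * ((Φ.dF 0 : ℚ) * δ b 0) := by
            rw [Finset.mul_sum]
            exact Finset.sum_congr rfl fun b _ => by ring
        _ = ∑ b, ∑ i : Fin (d + 1), -((Φ.dF i.succ : ℚ) * (g b * δ b i.succ)) := by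
            refine Finset.sum_congr rfl fun b _ => ?_
            rw [h4, mul_neg, Finset.mul_sum, ← Finset.sum_neg_distrib]
            exact Finset.sum_congr rfl fun i _ => by ring
        _ = ∑ i : Fin (d + 1), -((Φ.dF i.succ : ℚ) * ∑ b, g b * δ b i.succ) := by
            rw [Finset.sum_comm]
            refine Finset.sum_congr rfl fun i _ => ?_
            rw [Finset.sum_neg_distrib, Finset.mul_sum]
        _ = 0 := by
            refine Finset.sum_eq_zero fun i _ => ?_
            rw [h1, mul_zero, neg_zero]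
    exact (mul_eq_zero.1 h3).resolve_left (by exact_mod_cast (Φ.hd _).ne')
  have h2 : ∀ k, ∑ b, g b * (δ b k : ℚ) = 0 := fun k => Fin.cases h0 h1 k
  refine Fintype.linearIndependent_iff.1 hlin g ?_
  funext k
  rw [Finset.sum_apply, Pi.zero_apply, ← h2 k]
  refine Finset.sum_congr rfl fun b _ => ?_
  rw [Pi.smul_apply, smul_eq_mul, hδ]
  push_cast
  ring

end

end Pool.Agent.H172.EF
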