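import Pool.Agent.H172.EF.TwoM
import Pool.Agent.Y169.TH.Up

/-!
The structure of the sections.
-/

set_option autoImplicit false
set_option linter.overlappingInstances false
set_option linter.unusedSectionVars false
set_option maxHeartbeats 1000000

open FF MvPolynomial IntermediateField Pool.Agent.W603.LV Pool.Agent.W619.PQ
open Pool.Agent.W619.TW Pool.Agent.W602.GT Pool.Agent.TH122.AB Pool.Agent.TH756.PN
open Pool.Agent.Y169.CH Pool.Agent.W602.Cov.G Pool.Agent.Y169.TH

namespace Pool.Agent.H172.EF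

section

variable {k K K' : Type} [Field k] [CharZero k] [Field K] [Field K'] [Algebra k K'] [Algebra K K']

/-- the dual basis for the trace -/
theorem exists_dualb (G0 : Subgroup (K' ≃ₐ[k] K')) [Finite G0] [Algebra (fixedField G0) K]
    [IsScalarTower (fixedField G0) K K'] [FiniteDimensional (fixedField G0) K] :
    ∃ (δ : ℕ) (b β : Fin δ → K), ∀ (z : K) (t : Fin δ → fixedField G0),
      (∀ i, (t i : K') = tr G0 (algebraMap K K' (z * b i))) →
      z = ∑ i, algebraMap (fixedField G0) K (t i) * β i := by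
  classical
  let b := Module.finBasis (fixedField G0) K
  let δ := Module.finrank (fixedField G0) K
  have hcoe : ∀ (c : fixedField G0), algebraMap K K' (algebraMap (fixedField G0) K c) = (c : K') :=
    fun c => (IsScalarTower.algebraMap_apply (fixedField G0) K K' c).symm
  let T : K →ₗ[fixedField G0] (Fin δ → fixedField G0) :=
    { toFun := fun z i => ⟨tr G0 (algebraMap K K' (z * b i)), tr_fix G0 _⟩
      map_add' := by
        intro x y
        funext i
        apply Subtype.ext
        change tr G0 (algebraMap K K' ((x + y) * b i)) =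
          tr G0 (algebraMap K K' (x * b i)) + tr G0 (algebraMap K K' (y * b i))
        rw [add_mul, map_add, map_add]
      map_smul' := by
        intro c x
        funext i
        apply Subtype.ext
        change tr G0 (algebraMap K K' ((c • x) * b i)) =
          (c : K') * tr G0 (algebraMap K K' (x * b i))
        rw [← tr_lin, Algebra.smul_def, mul_assoc, map_mul, hcoe] }
  have hT : ∀ z i, ((T z i : fixedField G0) : K') = tr G0 (algebraMap K K' (z * b i)) :=
    fun z i => rfl
  have hinj : Function.Injective T := by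
    rw [← LinearMap.ker_eq_bot, LinearMap.ker_eq_bot']
    intro z hz
    by_contra hz0
    have hall : ∀ y : K, tr G0 (algebraMap K K' (z * y)) = 0 := by
      intro y
      rw [← b.sum_repr y, Finset.mul_sum, map_sum, map_sum]
      refine Finset.sum_eq_zero fun i _ => ?_
      have h2 : algebraMap K K' (z * (b.repr y i • b i)) =
          (b.repr y i : fixedField G0) * algebraMap K K' (z * b i) := by
        rw [Algebra.smul_def, ← hcoe, ← map_mul]
        congr 1
        ring
      rw [h2, tr_lin, ← hT, hz]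
      simp
    have h1 := hall z⁻¹
    rw [mul_inv_cancel₀ hz0, map_one, tr_apply] at h1
    have hcK : CharZero K' := charZero_of_injective_algebraMap (algebraMap k K').injective
    simp only [map_one, Finset.sum_const, Finset.card_univ, nsmul_eq_mul, mul_one] at h1
    rw [Nat.cast_eq_zero] at h1
    exact absurd h1 (@Fintype.card_ne_zero _ (Fintype.ofFinite G0) _)
  have hrk : Module.finrank (fixedField G0) K =
      Module.finrank (fixedField G0) (Fin δ → fixedField G0) := by
    rw [Module.finrank_fin_fun]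
  let e := LinearMap.linearEquivOfInjective T hinj hrk
  refine ⟨δ, b, fun i => e.symm (Pi.single i 1), fun z t ht => ?_⟩
  have h1 : T z = t := by
    funext i
    apply Subtype.ext
    rw [hT, ht]
  have h2 : z = e.symm t := by
    rw [LinearEquiv.eq_symm_apply, ← h1]
    rfl
  rw [h2]
  have h3 : t = ∑ i, t i • (Pi.single i (1 : fixedField G0) : Fin δ → fixedField G0) := by
    funext j
    rw [Finset.sum_apply, Finset.sum_eq_single j]
    · rw [Pi.smul_apply, Pi.single_eq_same, smul_eq_mul, mul_one]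
    · intro i _ hi
      rw [Pi.smul_apply, Pi.single_eq_of_ne (Ne.symm hi), smul_zero]
    · intro h
      exact absurd (Finset.mem_univ _) h
  conv_lhs => rw [h3]
  rw [map_sum]
  refine Finset.sum_congr rfl fun i _ => ?_
  rw [map_smul, Algebra.smul_def]

end

variable {d : ℕ} {Φ : Arr (d + 1)} {K : Type} [Field K] [Algebra ℂ K] {R : ℕ} (C : Cv Φ K R)

open Cv

include C in
/-- **The structure of the sections.** -/
theorem sec_mem {ι : Type} [Fintype ι] (T : ι → C.Dir) (S : Finset K)
    {D : Fin (d + 1) → Derivation ℂ K K} (hD : ∀ i j, D i (C.u j) = if i = j then 1 else 0) :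
    ∃ (δ : ℕ) (β : Fin δ → K) (Q : K) (c : ℕ), Q ≠ 0 ∧
      ∀ (m j q : ℕ) (ω : (Fin (d + 1) → Derivation ℂ K K) → K),
      Sec (d + 1) (pw S j) m ω →
      (∑ k, (Φ.dF k : ℤ) - (d + 2)) * m + c * (j + 1) ≤ Φ.E * q →
      ∃ R : Fin δ → MvPolynomial (Fin (d + 1)) ℂ,
        ω D * C.Lam m * ((aeval C.x (Φ.G 0) ^ q)⁻¹ * Q ^ (j + 1)) =
          ∑ i, aeval C.Y (R i) * β i ∧
        ∀ i, ∀ a ∈ (R i).support, ∀ s, (m : ℤ) - c * (j + 1) ≤
          (Φ.ee 0 * (T s).v 0 : ℤ) * (q - ∑ b, (a b : ℤ)) +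
            ∑ b, (Φ.ee b.succ * (T s).v b.succ : ℤ) * a b := by
  classical
  obtain ⟨K', iF, iA, iK, hT, G0, G, fG0, fG, hGG, a1, a2, a3, a4, b1, b2, b3, b4, Y, X, hY, hX,
    hYK, hXZ, hbX⟩ := exists_closure2 C.u_bas C.bas_Y C.adj_le C.fin_Y
  obtain ⟨DY, hDY0⟩ := exists_dual C.bas_Y
  have hDY : ∀ i j, DY i (C.Y j) = if i = j then 1 else 0 := by
    intro i j
    have h1 := congrFun (congrFun hDY0 i) j
    rw [Matrix.of_apply, Matrix.one_apply] at h1
    exact h1
  -- the coordinates in `K'`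
  have hXK' : ∀ j, (X j : K') = algebraMap K K' (C.u j) := by
    intro j
    rw [← hXZ, ← IsScalarTower.algebraMap_apply (fixedField G) K K']
    rfl
  have hYK' : ∀ j, (Y j : K') = algebraMap K K' (C.Y j) := by
    intro j
    rw [← hYK, ← IsScalarTower.algebraMap_apply (fixedField G0) K K']
    rfl
  have hXfun : (fun j => (X j : K')) = fun j => algebraMap K K' (C.u j) := funext hXK'
  have hYfun : (fun j => (Y j : K')) = fun j => algebraMap K K' (C.Y j) := funext hYK'
  obtain ⟨γ, hγd⟩ : ∃ γ, γ = aeval C.x (Φ.G 0) := ⟨_, rfl⟩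
  have hγ0 : γ ≠ 0 := by
    rw [hγd]
    exact C.G_ne 0
  have hγG : ∀ g ∈ G, g (algebraMap K K' γ) = algebraMap K K' γ := by
    intro g hg
    have h1 : algebraMap K K' γ = ((aeval X (deh (Φ.G 0)) : fixedField G) : K') := by
      rw [← aeval_fix, hXfun, hγd, ← C.ae_deh]
      exact (MvPolynomial.aeval_algebraMap_apply K' C.u (deh (Φ.G 0))).symm
    rw [h1]
    exact (aeval X (deh (Φ.G 0)) : fixedField G).2 ⟨g, hg⟩
  have hint : ∀ (q : ℕ) (P : MvPolynomial (Fin (d + 1)) ℂ),
      (∀ m ∈ P.support, ∑ b, m b ≤ Φ.E * q) →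
      IsIntegral (Algebra.adjoin ℂ (Set.range fun j => (Y j : K')))
        (aeval (fun j => (X j : K')) P / (algebraMap K K' γ) ^ q) := by
    intro q P hP
    obtain ⟨p, hp, hp0⟩ := C.int_u hP
    have hle : ∀ x ∈ Algebra.adjoin ℂ (Set.range C.Y), algebraMap K K' x ∈
        Algebra.adjoin ℂ (Set.range fun j => (Y j : K')) := by
      intro x hx
      rw [Algebra.adjoin_range_eq_range_aeval] at hx ⊢
      obtain ⟨Q, rfl⟩ := hx
      refine ⟨Q, ?_⟩
      rw [hYfun]
      exact MvPolynomial.aeval_algebraMap_apply K' C.Y Q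
    let φ : Algebra.adjoin ℂ (Set.range C.Y) →+*
        Algebra.adjoin ℂ (Set.range fun j => (Y j : K')) :=
      ((algebraMap K K').comp (Algebra.adjoin ℂ (Set.range C.Y)).subtype).codRestrict
        (Algebra.adjoin ℂ (Set.range fun j => (Y j : K'))) fun x => hle x.1 x.2
    have hel : aeval (fun j => (X j : K')) P / (algebraMap K K' γ) ^ q =
        algebraMap K K' (aeval C.u P / aeval C.x (Φ.G 0) ^ q) := by
      rw [map_div₀, map_pow, ← hγd, hXfun]
      congr 1
      exact MvPolynomial.aeval_algebraMap_apply K' C.u P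
    rw [hel]
    refine ⟨p.map φ, hp.map _, ?_⟩
    rw [Polynomial.eval₂_map]
    have h1 := congrArg (algebraMap K K') hp0
    rw [map_zero, Polynomial.hom_eval₂] at h1
    exact h1
  -- the place at infinity
  obtain ⟨v0, hv0, hinf⟩ := C.inf_f hX hXZ hD
  obtain ⟨w0, e0, I0, hw0, hI0c, hI0⟩ := exists_inertia G v0
  -- the test places
  have hpl : ∀ s : ι, ∃ v : Place ℂ (fixedField G0), ∀ P : MvPolynomial (Fin (d + 1)) ℂ, P ≠ 0 →
      v.ord (aeval Y P) = zord (T s).lam P := fun s => exists_zmono hY _ (T s).hlam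
  choose vs hvs using hpl
  choose ws es Is hws hIsc hIs using fun s => exists_inertia G0 (vs s)
  obtain ⟨δ, bb, β, hβ⟩ := exists_dualb (K := K) G0
  obtain ⟨QQ, hQQ, c1, hC⟩ := two_mem G0 G hGG hX hbX hY (γ := algebraMap K K' γ)
    (by simpa using hγ0) hγG Φ.E hint hv0 hw0 (fun s => (T s).lam) hvs hws
    (S.image (algebraMap K K')) fun i => algebraMap K K' (bb i)
  have hQX : aeval (fun j => (X j : K')) QQ = algebraMap K K' (aeval C.u QQ) := by
    rw [hXfun]
    exact MvPolynomial.aeval_algebraMap_apply K' C.u QQ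
  -- the constants of `S`
  obtain ⟨c2, hc2, hc2'⟩ : ∃ c2 : ℕ, (∀ g ∈ G0, ∀ s ∈ S, -(c2 : ℤ) ≤
      w0.ord (g (algebraMap K K' s))) ∧
      ∀ t, ∀ g ∈ G0, ∀ s ∈ S, -(c2 : ℤ) ≤ (ws t).ord (g (algebraMap K K' s)) := by
    have hfin : ((Set.image2 (fun (g : K' ≃ₐ[ℂ] K') (s : K) => w0.ord
        (g (algebraMap K K' s))) (G0 : Set (K' ≃ₐ[ℂ] K')) (S : Set K)) ∪
        (⋃ t, Set.image2 (fun (g : K' ≃ₐ[ℂ] K') (s : K) => (ws t).ord
        (g (algebraMap K K' s))) (G0 : Set (K' ≃ₐ[ℂ] K')) (S : Set K))).Finite :=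
      (Set.Finite.image2 _ (Set.toFinite _) (Set.toFinite _)).union
        (Set.finite_iUnion fun t => Set.Finite.image2 _ (Set.toFinite _) (Set.toFinite _))
    obtain ⟨M0, hM0⟩ := hfin.bddBelow
    refine ⟨M0.natAbs, fun g hg s hs => ?_, fun t g hg s hs => ?_⟩
    · have h1 := hM0 (Or.inl (Set.mem_image2_of_mem hg hs))
      have h2 : -(M0.natAbs : ℤ) ≤ M0 := by omega
      exact h2.trans h1
    · have h1 := hM0 (Or.inr (Set.mem_iUnion.2 ⟨t, Set.mem_image2_of_mem hg hs⟩))
      have h2 : -(M0.natAbs : ℤ) ≤ M0 := by omega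
      exact h2.trans h1
  obtain ⟨NN, hNN⟩ : ∃ NN : ℕ, NN = ∑ s, (T s).N := ⟨_, rfl⟩
  have hNle : ∀ s, (T s).N ≤ NN := by
    intro s
    rw [hNN]
    exact Finset.single_le_sum (f := fun s => (T s).N) (fun _ _ => Nat.zero_le _)
      (Finset.mem_univ s)
  refine ⟨δ, β, aeval C.u QQ, (NN + 1) * (c1 + c2 + 1), C.ae_ne hQQ, fun m j q ω hsec hq => ?_⟩
  -- from `K` to `K'`
  have hS' : ∀ s' ∈ pw S j, algebraMap K K' s' ∈ pw (S.image (algebraMap K K')) j := by
    intro s' hs'
    obtain ⟨s, hs, rfl⟩ := mem_pw.1 hs'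
    rw [map_pow]
    exact mem_pw.2 ⟨_, Finset.mem_image_of_mem _ hs, rfl⟩
  have hq2 : (∑ k, (Φ.dF k : ℤ) - (d + 2)) * m + c2 * j + c1 * (j + 1) ≤ Φ.E * q := by
    refine le_trans ?_ hq
    push_cast
    have h1 : (0 : ℤ) ≤ NN * (c1 + c2 + 1) * (j + 1) := by positivity
    have h2 : (0 : ℤ) ≤ (c2 + j + 1 : ℤ) := by positivity
    nlinarith
  have hRR := hC j q ((∑ k, (Φ.dF k : ℤ) - (d + 2)) * m + c2 * j)
    (fun s => - ((-((es s : ℤ) * m)) / ((T s).N : ℤ)) - c2 * j - q * (es s * (T s).V 0))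
    (algebraMap K K' (ω D * C.Lam m)) ?_ ?_ hq2 ?_
  · choose R hR1 hR2 using hRR
    refine ⟨R, ?_, fun i a ha s => ?_⟩
    · refine (hβ _ (fun i => aeval Y (R i)) fun i => ?_).trans ?_
      · rw [← hR1 i, hQX]
        congr 1
        simp only [map_mul, map_inv₀, map_pow, hγd]
        ring
      · refine Finset.sum_congr rfl fun i _ => ?_
        congr 1
        have h1 := MvPolynomial.aeval_algebraMap_apply K (fun j => Y j) (R i)
        rw [← h1]
        congr 2
        funext j
        exact hYK j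
    · have h1 := hR2 i a ha s
      have hN0 : (0 : ℤ) < (T s).N := by exact_mod_cast (T s).hN
      have hes : (1 : ℤ) ≤ es s := by exact_mod_cast (hws s).1
      obtain ⟨W, hW⟩ : ∃ W : ℤ, W = (T s).V 0 * (q - ∑ b, (a b : ℤ)) +
        ∑ b, ((T s).V b.succ : ℤ) * a b := ⟨_, rfl⟩
      have hsum : (Φ.ee 0 * (T s).v 0 : ℤ) * (q - ∑ b, (a b : ℤ)) +
          ∑ b, (Φ.ee b.succ * (T s).v b.succ : ℤ) * a b = (T s).N * W := by
        have h2 : ∀ k, (Φ.ee k : ℤ) * (T s).v k = (T s).N * (T s).V k := fun k => by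
          exact_mod_cast (T s).hv k
        simp only [h2]
        rw [hW, mul_add, Finset.mul_sum]
        congr 1
        · ring
        · exact Finset.sum_congr rfl fun b _ => by ring
      have hz : zwt (T s).lam a = W - q * (T s).V 0 := by
        rw [hW]
        unfold zwt Dir.lam
        simp only [sub_mul]
        rw [Finset.sum_sub_distrib, ← Finset.mul_sum]
        ring
      rw [hsum]
      rw [hz] at h1
      have h2 : - ((-((es s : ℤ) * m)) / ((T s).N : ℤ)) ≤ es s * W + c2 * j + c1 * (j + 1) := by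
        nlinarith
      have h3 : (es s : ℤ) * m ≤ (es s * W + c2 * j + c1 * (j + 1)) * (T s).N := by
        have h4 := Int.emod_add_mul_ediv (-((es s : ℤ) * m)) ((T s).N : ℤ)
        have h5 := Int.emod_nonneg (-((es s : ℤ) * m)) hN0.ne'
        nlinarith
      have h4 : (es s : ℤ) * (m - (T s).N * W) ≤ (c2 * j + c1 * (j + 1)) * (T s).N := by
        nlinarith
      have h5 : (m : ℤ) - (T s).N * W ≤ (c2 * j + c1 * (j + 1)) * (T s).N := by
        by_cases h6 : (m : ℤ) - (T s).N * W ≤ 0
        · exact h6.trans (by positivity)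
        · push Not at h6
          nlinarith
      have h6 : ((T s).N : ℤ) ≤ NN := by exact_mod_cast hNle s
      have h7 : (c2 * j + c1 * (j + 1) : ℤ) * (T s).N ≤ (c2 * j + c1 * (j + 1)) * NN :=
        mul_le_mul_of_nonneg_left h6 (by positivity)
      have h8 : (c2 * j + c1 * (j + 1) : ℤ) * NN ≤ ((NN + 1) * (c1 + c2 + 1) : ℕ) * (j + 1) := by
        push_cast
        have h9 : (c2 * j + c1 * (j + 1) : ℤ) ≤ (c1 + c2 + 1) * (j + 1) := by
          have : (0 : ℤ) ≤ (c2 + j + 1 : ℤ) := by positivity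
          nlinarith
        calc (c2 * j + c1 * (j + 1) : ℤ) * NN ≤ ((c1 + c2 + 1) * (j + 1)) * NN :=
              mul_le_mul_of_nonneg_right h9 (by positivity)
          _ ≤ _ := by
            have : (0 : ℤ) ≤ (c1 + c2 + 1) * (j + 1) := by positivity
            nlinarith
      linarith
  · -- the places of the irreducible polynomials
    intro p hp v hvp hv
    obtain ⟨w, e, I, hwv, hcard, hI⟩ := exists_inertia G v
    refine ⟨w, e, hwv, fun g hg => ?_⟩
    obtain ⟨P, e1, e2, h1, h2, he⟩ := exists_restr (K := K) (over_comp hwv hg)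
    have hcase : e2 = 1 ∨ ∃ t, p ∣ deh (Φ.F t) := by
      by_cases hex : ∃ t, p ∣ deh (Φ.F t)
      · exact Or.inr hex
      left
      push Not at hex
      refine C.ramG hXZ hwv hI hcard hg h1 he fun i => ?_
      have h3 : ¬ p ∣ C.pb i := by
        unfold pb
        intro h4
        obtain ⟨t, -, ht⟩ := (Prime.dvd_finset_prod_iff hp.prime _).1 h4
        exact hex t (hp.prime.dvd_of_dvd_pow ht)
      rw [(hv _ (C.pb_ne i)).2.2 h3]
      exact dvd_zero _
    rcases C.adic_f hX hXZ hD hp hvp hv h2 hcase (hsec) with h3 | ⟨s', hs', hs0, hle⟩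
    · left
      rw [h3, map_zero]
    · right
      refine ⟨algebraMap K K' s', hS' s' hs', by simpa using hs0, ?_⟩
      rw [← Place.comp_ord, ← Place.comp_ord, h1.2, h1.2]
      exact mul_le_mul_of_nonneg_left hle (by positivity)
  · -- the place at infinity
    intro g hg
    obtain ⟨P, e1, e2, h1, h2, he⟩ := exists_restr (K := K) (over_comp hw0 hg)
    have he2 : e2 = 1 := by
      refine C.ramG hXZ hw0 hI0 hI0c hg h1 he fun i => ?_
      rw [pb, map_prod, ord_prod' v0 Finset.univ _ fun s _ => by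
        rw [map_pow]
        exact pow_ne_zero _ (hX.ne (deh_F_ne s))]
      have h3 : ∀ s, v0.ord (aeval X (deh (Φ.F s) ^ C.a i s)) =
          - ((C.a i s * Φ.dF s : ℕ) : ℤ) := by
        intro s
        rw [map_pow, v0.ord_pow, hv0 _ (deh_F_ne s), degB_deh (Φ.hh s) (Φ.hI s)]
        push_cast
        ring
      rw [Finset.sum_congr rfl fun s _ => h3 s, Finset.sum_neg_distrib, dvd_neg]
      exact_mod_cast C.hdiv i
    subst he2
    rcases hinf P h2 (pw S j) m ω (hsec) with h3 | ⟨s', hs', hs0, hle⟩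
    · left
      rw [h3, map_zero, map_zero]
    · right
      obtain ⟨s, hs, rfl⟩ := mem_pw.1 hs'
      have h4 := hc2 g (hGG hg) s hs
      rw [← Place.comp_ord, h1.2] at h4
      rw [← Place.comp_ord, h1.2]
      rw [P.ord_pow] at hle
      have h5 : (e0 : ℤ) = e1 := by
        rw [he]
        push_cast
        ring
      rw [h5]
      have h6 : (e1 : ℤ) * (j * P.ord s) ≤ e1 * (P.ord (ω D * C.Lam m) +
        (∑ k, (Φ.dF k : ℤ) - (d + 2)) * m) := mul_le_mul_of_nonneg_left hle (by positivity)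
      have h7 : (j : ℤ) * (-(c2 : ℤ)) ≤ j * (e1 * P.ord s) :=
        mul_le_mul_of_nonneg_left h4 (by positivity)
      have h8 : (1 : ℤ) ≤ e1 := by exact_mod_cast h1.1
      have h9 : (0 : ℤ) ≤ c2 * j := by positivity
      have h10 : (c2 : ℤ) * j ≤ e1 * (c2 * j) := by nlinarith
      nlinarith
  · -- the test places
    intro s g hg
    obtain ⟨P, e1, e2, h1, h2, he⟩ := exists_restr (K := K) (over_comp (hws s) hg)
    obtain ⟨b0, hb0⟩ := (T s).ne
    obtain ⟨α, vv, hα, hdat⟩ := C.exists_dat P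
    -- the logarithmic vector fields
    obtain ⟨dd, hdddef⟩ : ∃ dd : Fin (d + 1) → Derivation ℂ K K,
      dd = fun b => algebraMap (fixedField G0) K (Y b) • DY b := ⟨_, rfl⟩
    have hlog : ∀ b z, P.Reg (dd b z / z) := fun b z => by
      rw [hdddef]
      exact log_zmono hY (T s).lam (hvs s) h2 (fun j => by rw [hYK]; exact hDY b j) z
    have hdd : ∀ i j, dd i (C.Y j) = if i = j then C.Y j else 0 := by
      intro i j
      rw [hdddef]
      dsimp only
      rw [Derivation.smul_apply, hDY, smul_eq_mul, hYK]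
      split_ifs with hij
      · rw [mul_one, hij]
      · rw [mul_zero]
    have hordY : ∀ b, P.ord (C.Y b) = e2 * (((T s).V b.succ : ℤ) - (T s).V 0) := by
      intro b
      have h3 := hvs s (MvPolynomial.X b) (X_ne_zero _)
      rw [aeval_X, zord_X] at h3
      rw [← hYK, h2.2, h3]
      rfl
    have hrel := C.toric_rel hdat (T s).h0 hordY
    have hdvd : e2 ∣ (T s).N := C.ram (hws s) (hIs s) (hIsc s) hg h1 he
      (fun b σ hσ => by
        rw [← hYK']
        exact (Y b).2 ⟨σ, hσ⟩) hdat (fun y j hj hy => C.jc_unit hdat hdd hlog hj hy)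
      (T s).hv hrel (T s).hT
    have hq3 : (∑ k, (Φ.dF k : ℤ) - (d + 2)) * m ≤ Φ.E * q := by
      have h3 : (0 : ℤ) ≤ c2 * j + c1 * (j + 1) := by positivity
      linarith
    rw [← map_pow, ← map_div₀, hγd]
    rcases C.test_f hY hYK hD hDY (T s).lam hb0 (hvs s) h2 hdat hα (hsec) hq3 with
      h3 | ⟨s', hs', hs0, hle⟩
    · left
      rw [h3, map_zero, map_zero]
    · right
      obtain ⟨s0, hs, rfl⟩ := mem_pw.1 hs'
      have h4 := hc2' s g hg s0 hs
      rw [← Place.comp_ord, h1.2] at h4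
      rw [← Place.comp_ord, h1.2]
      rw [P.ord_pow] at hle
      have hr0 : (Φ.ee 0 : ℤ) * vv 0 = e2 * (T s).V 0 := by exact_mod_cast hrel 0
      rw [hr0] at hle
      have hN0 : (0 : ℤ) < (T s).N := by exact_mod_cast (T s).hN
      have he2N : e2 ≤ (T s).N := Nat.le_of_dvd (T s).hN hdvd
      have h5 := mul_le_mul_of_nonneg_left hle (show (0 : ℤ) ≤ e1 by positivity)
      have h7 : (j : ℤ) * (-(c2 : ℤ)) ≤ j * (e1 * P.ord s0) :=
        mul_le_mul_of_nonneg_left h4 (by positivity)
      have h8 : - ((-((es s : ℤ) * m)) / ((T s).N : ℤ)) ≤ e1 * m := by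
        rw [neg_le, Int.le_ediv_iff_mul_le hN0]
        rw [he]
        push_cast
        have h9 : (e2 : ℤ) ≤ (T s).N := by exact_mod_cast he2N
        have h10 : (0 : ℤ) ≤ e1 * m := by positivity
        nlinarith
      have h11 : (q : ℤ) * (es s * (T s).V 0) = e1 * (q * (e2 * (T s).V 0)) := by
        rw [he]
        push_cast
        ring
      rw [h11]
      nlinarith

end Pool.Agent.H172.EF
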