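import Pool.Agent.H172.EF.SecM
import Pool.Agent.H172.EF.Sct

/-!
Effective abundance for abelian covers of projective space branched along normal crossings.
-/

set_option autoImplicit false
set_option linter.overlappingInstances false
set_option linter.unusedSectionVars false
set_option maxHeartbeats 1000000

open FF MvPolynomial Pool.Agent.W603.LV Pool.Agent.W602.GT Pool.Agent.W602.Cov
open Pool.Agent.W602.Cov.G Pool.Agent.TH152.AC Pool.Agent.TH122.AB Pool.Agent.Y169.CH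
open Pool.Agent.Y169.TH Pool.Agent.W619.PQ

namespace Pool.Agent.H172.EF

variable {d : ℕ} {Φ : Arr (d + 1)} {K : Type} [Field K] [Algebra ℂ K] {R : ℕ} (C : Cv Φ K R)

/-- the order of a polynomial in the toric coordinates -/
theorem ge_aeval {P : Place ℂ K} {α : ℤ} {v : Fin (d + 2) → ℕ} (hdat : Dat P Φ.F Φ.dF C.x α v)
    (q : ℕ) {μ : ℤ} {R0 : MvPolynomial (Fin (d + 1)) ℂ}
    (h : ∀ a ∈ R0.support, μ ≤ ∑ k, (v k : ℤ) * Cv.yv Φ q a k) :
    Ge P (μ - q * (Φ.ee 0 * v 0)) (aeval C.Y R0) := by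
  classical
  rw [aeval_def, eval₂_eq']
  refine Ge.sum _ _ fun a ha => ?_
  have h1 : Ge P (∑ b, (a b : ℤ) * P.ord (C.Y b)) (∏ b, C.Y b ^ a b) := by
    right
    rw [ord_prod' P Finset.univ _ fun b _ => pow_ne_zero _ (C.Y_ne b)]
    exact le_of_eq (Finset.sum_congr rfl fun b _ => (P.ord_pow _ _).symm)
  have h2 := (Ge.const (P := P) (coeff a R0)).mul h1
  refine h2.mono ?_
  rw [zero_add]
  have h3 := h a ha
  rw [Cv.dot_yv] at h3
  have h4 : ∑ b, (a b : ℤ) * P.ord (C.Y b) = ∑ b, (Φ.ee b.succ * v b.succ : ℤ) * a b -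
      (Φ.ee 0 * v 0) * ∑ b, (a b : ℤ) := by
    rw [Finset.mul_sum, ← Finset.sum_sub_distrib]
    refine Finset.sum_congr rfl fun b _ => ?_
    rw [C.ord_Y hdat]
    ring
  rw [h4]
  linarith

/-- **The bound for the orders.** -/
theorem ord_bound (P : Place ℂ K) (S : Finset K) {L δ D : ℕ} (hL : 0 < L)
    (hML : ∀ j, C.M j ∣ L) (hδ : ∀ k, Φ.dF k ≤ δ)
    (hDd : ∀ i, 1 ≤ i → i ≤ (d + 2).factorial * δ * L ^ (d + 2 - 1) → i ∣ D) (hD0 : 0 < D)
    {D0 : Fin (d + 1) → Derivation ℂ K K} (hD : ∀ i j, D0 i (C.u j) = if i = j then 1 else 0)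
    (hbw : bw D0 C.x = 1) {α : ℤ} {v : Fin (d + 2) → ℕ} (hα : α ≤ 0)
    (hdat : Dat P Φ.F Φ.dF C.x α v) {w : Fin (d + 2) → ℕ} (hw : Lat C.M C.a Φ.dF D w)
    (hmin : ∀ w', Lat C.M C.a Φ.dF D w' → ∑ k, v k * w k ≤ ∑ k, v k * w' k) :
    ∃ c : ℕ, ∀ (m : ℕ) (ω : (Fin (d + 1) → Derivation ℂ K K) → K), Sec (d + 1) S m ω →
      ω D0 ≠ 0 → (m : ℤ) * P.ord (sct C D w D0) ≤ D * P.ord (ω D0) + c := by
  classical
  have hDq : (0 : ℚ) < D := by exact_mod_cast hD0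
  have hdq : ∀ k, (0 : ℚ) < Φ.dF k := fun k => by exact_mod_cast Φ.hd k
  have hLq : (0 : ℚ) < L := by exact_mod_cast hL
  obtain ⟨κ, hκ⟩ : ∃ κ : ℤ, κ = ∑ k, (Φ.dF k : ℤ) - (d + 2) := ⟨_, rfl⟩
  have hκ' : (∑ k, (Φ.dF k : ℤ) - ((d + 2 : ℕ) : ℤ)) = κ := by
    rw [hκ]
    push_cast
    rfl
  have hκ0 : 0 ≤ κ := by
    have h1 := hw.1
    rw [hκ'] at h1
    have h2 : (0 : ℤ) ≤ ∑ k, (Φ.dF k : ℤ) * w k := Finset.sum_nonneg fun k _ => by positivity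
    rw [h1] at h2
    have h3 : (0 : ℤ) < D := by exact_mod_cast hD0
    exact nonneg_of_mul_nonneg_right h2 h3
  choose T hT using fun s : RedL C.M C.a L => C.exists_dir s.2
  obtain ⟨δ', β, Q, c, hQ, hmem⟩ := sec_mem C T S hD
  obtain ⟨V, hV⟩ : ∃ V : ℤ, V = ∑ k, (v k : ℤ) * w k := ⟨_, rfl⟩
  -- the linear programming bound
  have hPi := PiA_eqL (a := C.a) (dF := Φ.dF) hL hML (by omega)
  rw [hκ'] at hPi
  obtain ⟨A0, hA0, hlp⟩ := lp_lower (v := fun (s : RedL C.M C.a L) k => (s.v k : ℚ))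
    (d := fun k => (Φ.dF k : ℚ)) (κ := (κ : ℚ)) hdq (fun y hy k => by
      obtain ⟨s, hs⟩ := dotL_unit (a := C.a) hL hML (by omega) k
      have h1 := hy s
      rw [hs] at h1
      exact nonneg_of_mul_nonneg_right h1 hLq) (u := fun k => (v k : ℚ)) (ρ := (V : ℚ) / D)
    (fun y hy => by
      rw [← hPi] at hy
      obtain ⟨w', hw', hle⟩ := exists_lat hL hML (by omega) hδ Φ.hd hDd hD0
        (fun k => (v k : ℚ)) hy
      rw [div_le_iff₀ hDq, mul_comm]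
      refine le_trans ?_ hle
      have h1 := hmin w' hw'
      rw [dotL_apply, hV]
      exact_mod_cast h1)
  -- the constants
  obtain ⟨B, hB⟩ : ∃ B : ℕ, B = 2 * c + Φ.E := ⟨_, rfl⟩
  obtain ⟨cβ, hcβ⟩ : ∃ cβ : ℕ, ∀ i, Ge P (-(cβ : ℤ)) (β i) := by
    refine ⟨∑ i, (P.ord (β i)).natAbs, fun i => ?_⟩
    right
    have h1 : (P.ord (β i)).natAbs ≤ ∑ i, (P.ord (β i)).natAbs :=
      Finset.single_le_sum (f := fun i => (P.ord (β i)).natAbs) (fun _ _ => Nat.zero_le _)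
        (Finset.mem_univ i)
    omega
  obtain ⟨A1, hA1⟩ := exists_nat_ge ((D : ℚ) * (A0 * (2 * c + B)))
  obtain ⟨c3, hc3⟩ : ∃ c3 : ℕ, c3 = cβ + 2 * (P.ord Q).natAbs + B * α.natAbs := ⟨_, rfl⟩
  refine ⟨A1 + D * c3, fun m ω hω hω0 => ?_⟩
  obtain ⟨X, hX⟩ : ∃ X : ℤ, X = κ * m + c * (1 + 1) := ⟨_, rfl⟩
  have hX0 : 0 ≤ X := by
    rw [hX]
    positivity
  obtain ⟨q, hq⟩ : ∃ q : ℕ, q = X.toNat / Φ.E + 1 := ⟨_, rfl⟩
  have hXn : (X.toNat : ℤ) = X := Int.toNat_of_nonneg hX0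
  have hq1 : X ≤ Φ.E * q := by
    have h1 : X.toNat < Φ.E * (X.toNat / Φ.E + 1) := Nat.lt_mul_div_succ _ Φ.E_pos
    have h2 : (X.toNat : ℤ) ≤ Φ.E * q := by
      rw [hq]
      exact_mod_cast h1.le
    rwa [hXn] at h2
  have hq2 : (Φ.E * q : ℤ) ≤ X + Φ.E := by
    have h1 : (Φ.E * q : ℕ) ≤ X.toNat + Φ.E := by
      rw [hq, mul_add, mul_one]
      exact Nat.add_le_add_right (Nat.mul_div_le _ _) _
    have h2 : (Φ.E * q : ℤ) ≤ (X.toNat : ℤ) + Φ.E := by exact_mod_cast h1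
    rwa [hXn] at h2
  obtain ⟨R0, hR1, hR2⟩ := hmem m 1 q ω (by rw [Pool.Agent.Y169.CH.Cvr.pw_one]; exact hω) (by
    rw [← hκ]
    rw [hX] at hq1
    exact_mod_cast hq1)
  obtain ⟨μ, hμ⟩ : ∃ μ : ℤ, μ = ⌈(V : ℚ) / D * m - A0 * (2 * c + B)⌉ := ⟨_, rfl⟩
  have hsupp : ∀ i, ∀ a ∈ (R0 i).support, μ ≤ ∑ k, (v k : ℤ) * Cv.yv Φ q a k := by
    intro i a ha
    rw [hμ, Int.ceil_le]
    have h1 := hlp (fun k => (Cv.yv Φ q a k : ℚ)) m (2 * c) B (by positivity) (by positivity)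
      (by positivity) (fun s => ?_) ?_
    · rw [Cv.dotq_yv] at h1
      exact h1
    · have h2 := hR2 i a ha s
      rw [hT] at h2
      change (m : ℚ) - 2 * c ≤ dotL (fun k => (((fun k => (s.1 k : ℕ)) k : ℕ) : ℚ)) _
      rw [Cv.dotq_yv, Cv.dot_yv]
      have h3 : (((m : ℤ) - c * ((1 : ℕ) + 1) : ℤ) : ℚ) ≤ _ := Int.cast_le.2 h2
      refine le_trans (le_of_eq ?_) h3
      push_cast
      ring
    · rw [Cv.dotq_yv, Cv.deg_yv, abs_le]
      have h1 : ((X : ℤ) : ℚ) ≤ ((Φ.E * q : ℤ) : ℚ) := by exact_mod_cast hq1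
      have h2 : ((Φ.E * q : ℤ) : ℚ) ≤ ((X + Φ.E : ℤ) : ℚ) := by exact_mod_cast hq2
      rw [hX] at h1 h2
      push_cast at h1 h2 ⊢
      rw [hB]
      push_cast
      have h3 : (0 : ℚ) ≤ c := by positivity
      have h4 : (0 : ℚ) ≤ Φ.E := by positivity
      constructor <;> linarith
  -- the order of the right hand side
  have hrhs : Ge P (μ - q * (Φ.ee 0 * v 0) - cβ) (∑ i, aeval C.Y (R0 i) * β i) := by
    refine Ge.sum _ _ fun i _ => ?_
    refine ((ge_aeval C hdat q (hsupp i)).mul (hcβ i)).mono (le_of_eq ?_)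
    ring
  rw [← hR1] at hrhs
  have hG0 := C.G_ne 0
  have hlhs := hrhs.resolve_left (mul_ne_zero (mul_ne_zero hω0 (C.Lam_ne m))
    (mul_ne_zero (inv_ne_zero (pow_ne_zero _ hG0)) (pow_ne_zero _ hQ)))
  rw [P.ord_mul (mul_ne_zero hω0 (C.Lam_ne m))
    (mul_ne_zero (inv_ne_zero (pow_ne_zero _ hG0)) (pow_ne_zero _ hQ)),
    P.ord_mul hω0 (C.Lam_ne m), P.ord_mul (inv_ne_zero (pow_ne_zero _ hG0)) (pow_ne_zero _ hQ),
    P.ord_inv, P.ord_pow, P.ord_pow, C.ord_G hdat, C.ord_Lam] at hlhs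
  have hsumF : ∑ t, P.ord (aeval C.x (Φ.F t)) = (κ + (d + 2)) * α + ∑ k, (v k : ℤ) := by
    rw [hκ, Finset.sum_congr rfl fun t _ => hdat.hv t, Finset.sum_add_distrib, ← Finset.sum_mul]
    ring
  rw [hsumF] at hlhs
  rw [sct_ord C hw hbw hdat, ← hV]
  -- the estimate for `μ`
  have hμ1 : (m : ℤ) * V - A1 ≤ D * μ := by
    have h1 : (V : ℚ) / D * m - A0 * (2 * c + B) ≤ μ := by
      rw [hμ]
      exact Int.le_ceil _
    have h2 := mul_le_mul_of_nonneg_left h1 hDq.le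
    have h3 : (D : ℚ) * ((V : ℚ) / D * m - A0 * (2 * c + B)) =
        m * V - D * (A0 * (2 * c + B)) := by
      field_simp
    rw [h3] at h2
    have h4 : ((m : ℚ) * V - A1) ≤ D * μ := by linarith
    exact_mod_cast h4
  -- the estimate for `q`
  have hqα : (κ * m + B) * α ≤ Φ.E * q * α := by
    have h1 : (Φ.E * q : ℤ) ≤ κ * m + B := by
      rw [hB]
      rw [hX] at hq2
      push_cast
      linarith
    nlinarith
  have hQa : -((P.ord Q).natAbs : ℤ) ≤ P.ord Q ∧ P.ord Q ≤ (P.ord Q).natAbs := by omega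
  have hαa : -((α.natAbs : ℕ) : ℤ) = α := by omega
  have hfin : μ - c3 - m * ((d + 2) * α) - m * ∑ k, (v k : ℤ) ≤ P.ord (ω D0) := by
    rw [hc3]
    push_cast
    have h1 : (B : ℤ) * |α| = - (B * α) := by
      rw [abs_of_nonpos hα]
      ring
    have h2 : |P.ord Q| = ((P.ord Q).natAbs : ℤ) := Int.abs_eq_natAbs _
    rw [h1, h2]
    push_cast at hlhs
    nlinarith [hQa.1, hQa.2]
  have hDz : (0 : ℤ) ≤ D := by positivity
  have h1 := mul_le_mul_of_nonneg_left hfin hDz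
  push_cast
  nlinarith

/-- the bound without a constant -/
theorem ord_exact {P : Place ℂ K} {D : ℕ} {D0 : Fin (d + 1) → Derivation ℂ K K}
    {w : Fin (d + 2) → ℕ} {c : ℕ} (h : ∀ (m : ℕ) (ω : (Fin (d + 1) → Derivation ℂ K K) → K),
      Sec (d + 1) {1} m ω → ω D0 ≠ 0 → (m : ℤ) * P.ord (sct C D w D0) ≤ D * P.ord (ω D0) + c)
    {m : ℕ} {ω : (Fin (d + 1) → Derivation ℂ K K) → K} (hω : ASec (d + 1) {1} m 1 ω)
    (hω0 : ω D0 ≠ 0) : (m : ℤ) * P.ord (sct C D w D0) ≤ D * P.ord (ω D0) := by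
  have h1 := h ((c + 1) * m) (fun Dv => ω Dv ^ (c + 1)) (asec_one (asec_pow hω (c + 1)))
    (pow_ne_zero _ hω0)
  rw [P.ord_pow] at h1
  push_cast at h1
  by_contra hcon
  push Not at hcon
  obtain ⟨t, ht⟩ : ∃ t : ℤ, t = (m : ℤ) * P.ord (sct C D w D0) - D * P.ord (ω D0) := ⟨_, rfl⟩
  have h2 : 1 ≤ t := by omega
  have h3 : ((c : ℤ) + 1) * t ≤ c := by
    rw [ht]
    linarith
  have h4 : ((c : ℤ) + 1) * 1 ≤ (c + 1) * t := mul_le_mul_of_nonneg_left h2 (by positivity)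
  linarith

include C in
/-- the frames -/
theorem exists_mat {D0 : Fin (d + 1) → Derivation ℂ K K}
    (hD : ∀ i j, D0 i (C.u j) = if i = j then 1 else 0) (Dv : Fin (d + 1) → Derivation ℂ K K) :
    ∃ A : Matrix (Fin (d + 1)) (Fin (d + 1)) K, Dv = fun i => ∑ j, A i j • D0 j := by
  refine ⟨Matrix.of fun i b => Dv i (C.u b), ?_⟩
  funext i
  apply der_ext' C.u_bas
  intro j
  rw [sum_der, Finset.sum_eq_single j]
  · rw [hD, if_pos rfl, mul_one]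
    rfl
  · intro b _ hb
    rw [hD, if_neg hb, mul_zero]
  · intro hj
    exact absurd (Finset.mem_univ _) hj

include C in
/-- the change of the frame -/
theorem frame {D0 : Fin (d + 1) → Derivation ℂ K K}
    (hD : ∀ i j, D0 i (C.u j) = if i = j then 1 else 0) {P : Place ℂ K} {D m : ℕ} (hm : 1 ≤ m)
    {s ω : (Fin (d + 1) → Derivation ℂ K K) → K} (hs : IsPluri D s) (hω : IsPluri m ω)
    (hs0 : s D0 ≠ 0) {c : ℤ}
    (h : ω D0 ≠ 0 → (m : ℤ) * P.ord (s D0) ≤ D * P.ord (ω D0) + c)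
    {Dv : Fin (d + 1) → Derivation ℂ K K} (hDv : ω Dv ≠ 0) :
    s Dv ≠ 0 ∧ (m : ℤ) * P.ord (s Dv) ≤ D * P.ord (ω Dv) + c := by
  obtain ⟨A, rfl⟩ := exists_mat C hD Dv
  rw [hω A D0] at hDv ⊢
  rw [hs A D0]
  have h1 : A.det ≠ 0 := by
    intro h0
    rw [h0, zero_pow (by omega), zero_mul] at hDv
    exact hDv rfl
  have h2 : ω D0 ≠ 0 := right_ne_zero_of_mul hDv
  refine ⟨mul_ne_zero (pow_ne_zero _ h1) hs0, ?_⟩
  rw [P.ord_mul (pow_ne_zero _ h1) hs0, P.ord_mul (pow_ne_zero _ h1) h2, P.ord_pow, P.ord_pow]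
  have h3 := h h2
  nlinarith

/-- **Effective abundance.** -/
theorem top {L δ D : ℕ} (hL : 0 < L)
    (hML : ∀ j, C.M j ∣ L) (hδ : ∀ k, Φ.dF k ≤ δ)
    (hDd : ∀ i, 1 ≤ i → i ≤ (d + 2).factorial * δ * L ^ (d + 2 - 1) → i ∣ D) (hD0 : 0 < D)
    (hne : (PiA C.M C.a Φ.dF).Nonempty) {h : ℕ}
    (hh : Module.finrank ℚ (vectorSpan ℚ (PiA C.M C.a Φ.dF)) = h) :
    (∃ (r : ℕ) (s : Fin r → (Fin (d + 1) → Derivation ℂ K K) → K),
      (∀ b, ASec (d + 1) {1} D 1 (s b)) ∧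
      ∀ P : Place ℂ K, ∃ b,
        (∀ (m : ℕ) (ω : (Fin (d + 1) → Derivation ℂ K K) → K), 1 ≤ m → ASec (d + 1) {1} m 1 ω →
          ∀ Dv, ω Dv ≠ 0 → s b Dv ≠ 0 ∧ (m : ℤ) * P.ord (s b Dv) ≤ D * P.ord (ω Dv)) ∧
        ∀ S : Finset K, ∃ c : ℕ, ∀ (m : ℕ) (ω : (Fin (d + 1) → Derivation ℂ K K) → K), 1 ≤ m →
          ASec (d + 1) S m 1 ω →
          ∀ Dv, ω Dv ≠ 0 → s b Dv ≠ 0 ∧ (m : ℤ) * P.ord (s b Dv) ≤ D * P.ord (ω Dv) + c) ∧
    (∃ ω : Fin (h + 1) → (Fin (d + 1) → Derivation ℂ K K) → K,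
      (∀ b, ASec (d + 1) {1} D 1 (ω b)) ∧
      ∃ D, ω 0 D ≠ 0 ∧ AlgebraicIndependent ℂ (fun b : Fin h => ω b.succ D / ω 0 D)) ∧
    ∀ j : ℕ, ∃ ω : Fin ((j + h).choose h) → (Fin (d + 1) → Derivation ℂ K K) → K,
      LinearIndependent ℂ ω ∧ ∀ b, ASec (d + 1) {1} (j * D) 1 (ω b) := by
  classical
  obtain ⟨D0, hD00⟩ := exists_dual C.u_bas
  have hD : ∀ i j, D0 i (C.u j) = if i = j then 1 else 0 := by
    intro i j
    have h1 := congrFun (congrFun hD00 i) j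
    rw [Matrix.of_apply, Matrix.one_apply] at h1
    exact h1
  have hbw : bw D0 C.x = 1 := by
    rw [Pool.Agent.W930.CG.bw_one D0 C.x C.hx0]
    change (Matrix.of fun i j => D0 i (C.u j)).det = 1
    rw [hD00, Matrix.det_one]
  obtain ⟨y1, hy1⟩ := hne
  refine ⟨?_, ?_⟩
  · -- the finite set of the lattice points
    obtain ⟨B0, hB0⟩ : ∃ B0 : ℕ, ∀ w, Lat C.M C.a Φ.dF D w → ∀ k, w k ≤ B0 := by
      refine ⟨(D * (∑ k, (Φ.dF k : ℤ) - ((d + 1 + 1 : ℕ) : ℤ))).toNat, fun w hw k => ?_⟩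
      have h1 : (Φ.dF k : ℤ) * w k ≤ ∑ k, (Φ.dF k : ℤ) * w k :=
        Finset.single_le_sum (f := fun k => (Φ.dF k : ℤ) * w k) (fun _ _ => by positivity)
          (Finset.mem_univ k)
      rw [hw.1] at h1
      have h2 : (1 : ℤ) ≤ Φ.dF k := by exact_mod_cast Φ.hd k
      have h3 : (w k : ℤ) ≤ Φ.dF k * w k := by nlinarith
      omega
    let W : Finset (Fin (d + 2) → ℕ) :=
      (Fintype.piFinset fun _ : Fin (d + 2) => Finset.range (B0 + 1)).filter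
        fun w => Lat C.M C.a Φ.dF D w
    have hW : ∀ w, w ∈ W ↔ Lat C.M C.a Φ.dF D w := by
      intro w
      simp only [W, Finset.mem_filter, Fintype.mem_piFinset, Finset.mem_range]
      exact ⟨fun h => h.2, fun h => ⟨fun k => Nat.lt_succ_of_le (hB0 w h k), h⟩⟩
    let e : Fin (Fintype.card W) ≃ W := (Fintype.equivFin W).symm
    refine ⟨Fintype.card W, fun b => sct C D (e b).1, fun b => sct_sec C ((hW _).1 (e b).2),
      fun P => ?_⟩
    obtain ⟨α, v, hα, hdat⟩ := C.exists_dat P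
    obtain ⟨w0, hw0, -⟩ := exists_lat hL hML (by omega) hδ Φ.hd hDd hD0 0 hy1
    obtain ⟨w, hwW, hmin⟩ := Finset.exists_min_image W (fun w => ∑ k, v k * w k)
      ⟨w0, (hW _).2 hw0⟩
    have hw := (hW _).1 hwW
    have hmin' : ∀ w', Lat C.M C.a Φ.dF D w' → ∑ k, v k * w k ≤ ∑ k, v k * w' k :=
      fun w' hw' => hmin w' ((hW _).2 hw')
    have key := fun S : Finset K => ord_bound C P S hL hML hδ hDd hD0 hD hbw hα hdat hw hmin'
    have hee : e (e.symm ⟨w, hwW⟩) = ⟨w, hwW⟩ := e.apply_symm_apply _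
    refine ⟨e.symm ⟨w, hwW⟩, fun m ω hm hω Dv hDv => ?_, fun S => ?_⟩
    · simp only [hee]
      obtain ⟨c, hc⟩ := key {1}
      have h1 := frame C hD (P := P) hm (sct_sec C hw).1 hω.1 (sct_ne C hbw) (c := 0)
        (fun h0 => by
          rw [add_zero]
          exact ord_exact C hc hω h0) hDv
      rwa [add_zero] at h1
    · simp only [hee]
      obtain ⟨c, hc⟩ := key S
      refine ⟨c, fun m ω hm hω Dv hDv => ?_⟩
      exact frame C hD (P := P) hm (sct_sec C hw).1 hω.1 (sct_ne C hbw)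
        (fun h0 => hc m ω (asec_one hω) h0) hDv
  · obtain ⟨w, hw, hlin⟩ := exists_pts hL hML (by omega) hδ Φ.hd hDd hD0 ⟨y1, hy1⟩ hh
    have hind := ratio_ind C hw hlin hbw
    refine ⟨⟨fun b => sct C D (w b), fun b => sct_sec C (hw b), D0, sct_ne C hbw, hind⟩,
      fun j => ?_⟩
    have hcard : Fintype.card (Sym (Fin (h + 1)) j) = (j + h).choose h := by
      rw [Sym.card_sym_fin_eq_multichoose, Nat.multichoose_eq]
      have h1 : h + 1 + j - 1 = j + h := by omega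
      rw [h1, Nat.choose_symm_add]
    let e : Fin ((j + h).choose h) ≃ Sym (Fin (h + 1)) j := (Fintype.equivFinOfCardEq hcard).symm
    refine ⟨fun b Dv => (((e b : Sym (Fin (h + 1)) j) : Multiset (Fin (h + 1))).map
      fun i => sct C D (w i) Dv).prod, ?_, fun b => ?_⟩
    · refine LinearIndependent.of_comp (LinearMap.proj (R := ℂ)
        (φ := fun _ : Fin (d + 1) → Derivation ℂ K K => K) D0) ?_
      exact (sym_indep (f := fun i => sct C D (w i) D0) (sct_ne C hbw) hind j).comp e e.injective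
    · have h1 := asec_prod (ω := fun i => sct C D (w i)) (fun i => sct_sec C (hw i))
        ((e b : Sym (Fin (h + 1)) j) : Multiset (Fin (h + 1)))
      rwa [Sym.card_coe] at h1

end Pool.Agent.H172.EF
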