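import Pool.Agent.H172.EF.LPs
import Pool.Agent.Y169.TH.Cnt

/-!
The lattice points of the multiples of the polyhedron.
-/

set_option autoImplicit false
set_option linter.overlappingInstances false
set_option linter.unusedSectionVars false
set_option maxHeartbeats 400000

open Pool.Agent.TH152.AC Pool.Agent.Y169.TH

namespace Pool.Agent.H172.EF

section

variable {N R : ℕ} {M : Fin R → ℕ} {a : Fin R → Fin N → ℕ} {dF : Fin N → ℕ}

/-- the reduced admissible vectors -/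
def RedL (M : Fin R → ℕ) (a : Fin R → Fin N → ℕ) (L : ℕ) : Type :=
  {v : Fin N → Fin (L + 1) // Adm M a fun k => (v k : ℕ)}

noncomputable instance (L : ℕ) : Fintype (RedL M a L) := by
  classical
  exact inferInstanceAs (Fintype {v : Fin N → Fin (L + 1) // Adm M a fun k => (v k : ℕ)})

/-- the vector -/
def RedL.v {L : ℕ} (s : RedL M a L) (k : Fin N) : ℕ := (s.1 k : ℕ)

theorem RedL.le {L : ℕ} (s : RedL M a L) (k : Fin N) : s.v k ≤ L := Nat.lt_succ_iff.1 (s.1 k).2

theorem exists_redL {L : ℕ} (hL : 0 < L) (hM : ∀ j, M j ∣ L) {v : Fin N → ℕ} (hv : Adm M a v) :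
    ∃ s : RedL M a L, ∀ k, s.v k ≤ v k := by
  classical
  obtain ⟨v', hv'⟩ : ∃ v' : Fin N → ℕ, v' = fun k => if v k = 0 then 0 else (v k - 1) % L + 1 :=
    ⟨_, rfl⟩
  have h1 : ∀ k, v' k ≤ L := by
    intro k
    rw [hv']
    dsimp only
    split_ifs
    · exact Nat.zero_le _
    · exact Nat.mod_lt _ hL
  have h2 : ∀ k, v' k ≤ v k := by
    intro k
    rw [hv']
    dsimp only
    split_ifs with h
    · exact Nat.zero_le _
    · have := Nat.mod_le (v k - 1) L
      omega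
  have h3 : ∀ k, ∃ c, v k = v' k + L * c := by
    intro k
    rw [hv']
    dsimp only
    split_ifs with h
    · exact ⟨0, by rw [h]; simp⟩
    · refine ⟨(v k - 1) / L, ?_⟩
      have := Nat.mod_add_div (v k - 1) L
      omega
  choose c hc using h3
  have hadm : Adm M a v' := by
    obtain ⟨h4, ⟨k0, hk0⟩, h5⟩ := hv
    refine ⟨?_, ⟨k0, ?_⟩, fun j => ?_⟩
    · intro h0
      apply h4
      funext k
      have h6 := congrFun h0 k
      rw [hv', Pi.zero_apply] at h6
      dsimp only at h6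
      rw [Pi.zero_apply]
      by_contra hne
      rw [if_neg hne] at h6
      simp at h6
    · rw [hv']
      dsimp only
      rw [if_pos hk0]
    · have h6 := h5 j
      have h7 : ∑ k, a j k * v k = ∑ k, a j k * v' k + L * ∑ k, a j k * c k := by
        rw [Finset.mul_sum, ← Finset.sum_add_distrib]
        refine Finset.sum_congr rfl fun k _ => ?_
        rw [hc k]
        ring
      rw [h7] at h6
      exact (Nat.dvd_add_left (dvd_mul_of_dvd_left (hM j) _)).1 h6
  exact ⟨⟨fun k => ⟨v' k, Nat.lt_succ_of_le (h1 k)⟩, hadm⟩, h2⟩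

theorem adm_unit {L : ℕ} (hL : 0 < L) (hM : ∀ j, M j ∣ L) (hN : 2 ≤ N) (k : Fin N) :
    Adm M a fun i => if i = k then L else 0 := by
  classical
  refine ⟨?_, ?_, fun j => ?_⟩
  · intro h0
    have h2 := congrFun h0 k
    rw [Pi.zero_apply] at h2
    simp only [if_true] at h2
    omega
  · have : Nontrivial (Fin N) := Fin.nontrivial_iff_two_le.2 hN
    obtain ⟨i, hi⟩ := exists_ne k
    exact ⟨i, if_neg hi⟩
  · refine Finset.dvd_sum fun i _ => ?_
    dsimp only
    split_ifs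
    · exact dvd_mul_of_dvd_right (hM j) _
    · rw [mul_zero]
      exact dvd_zero _

theorem exists_unit_redL {L : ℕ} (hL : 0 < L) (hM : ∀ j, M j ∣ L) (hN : 2 ≤ N) (k : Fin N) :
    ∃ s : RedL M a L, ∀ i, s.v i = if i = k then L else 0 := by
  classical
  refine ⟨⟨fun i => if i = k then Fin.last _ else 0, ?_⟩, fun i => ?_⟩
  · have h1 : (fun i => (((if i = k then Fin.last L else 0 : Fin (L + 1)) : ℕ))) =
        fun i => if i = k then L else 0 := by
      funext i
      split_ifs <;> rfl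
    change Adm M a (fun i => (((if i = k then Fin.last L else 0 : Fin (L + 1)) : ℕ)))
    rw [h1]
    exact adm_unit hL hM hN k
  · unfold RedL.v
    dsimp only
    split_ifs <;> rfl

theorem dotL_unit {L : ℕ} (hL : 0 < L) (hM : ∀ j, M j ∣ L) (hN : 2 ≤ N) (k : Fin N) :
    ∃ s : RedL M a L, ∀ y : Fin N → ℚ, dotL (fun i => (s.v i : ℚ)) y = (L : ℚ) * y k := by
  classical
  obtain ⟨s, hs⟩ := exists_unit_redL (a := a) hL hM hN k
  refine ⟨s, fun y => ?_⟩
  rw [dotL_apply, Finset.sum_eq_single k]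
  · rw [hs, if_pos rfl]
  · intro i _ hi
    rw [hs, if_neg hi, Nat.cast_zero, zero_mul]
  · intro hk
    exact absurd (Finset.mem_univ _) hk

/-- the polyhedron is given by finitely many inequalities -/
theorem PiA_eqL {L : ℕ} (hL : 0 < L) (hM : ∀ j, M j ∣ L) (hN : 2 ≤ N) :
    PiA M a dF = Pol (fun k => (dF k : ℚ)) (((∑ k, (dF k : ℤ) - N : ℤ)) : ℚ)
      fun (s : RedL M a L) k => (s.v k : ℚ) := by
  have hκ : (((∑ k, (dF k : ℤ) - N : ℤ)) : ℚ) = ∑ k, (dF k : ℚ) - N := by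
    push_cast
    rfl
  rw [hκ]
  ext y
  constructor
  · rintro ⟨h1, h2⟩
    exact ⟨h1, fun s => h2 _ s.2⟩
  · rintro ⟨h1, h2⟩
    refine ⟨h1, fun v hv => ?_⟩
    obtain ⟨s, hs⟩ := exists_redL hL hM hv
    have h3 : ∀ k, 0 ≤ y k := by
      intro k
      obtain ⟨t, ht⟩ := dotL_unit (a := a) hL hM hN k
      have h4 := h2 t
      rw [ht] at h4
      have h5 : (0 : ℚ) < L := by exact_mod_cast hL
      by_contra hneg
      push Not at hneg
      nlinarith
    refine (h2 s).trans ?_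
    rw [dotL_apply]
    refine Finset.sum_le_sum fun k _ => mul_le_mul_of_nonneg_right ?_ (h3 k)
    change ((s.v k : ℕ) : ℚ) ≤ ((v k : ℕ) : ℚ)
    exact_mod_cast hs k

/-- the lattice points -/
def Lat (M : Fin R → ℕ) (a : Fin R → Fin N → ℕ) (dF : Fin N → ℕ) (D : ℕ) (w : Fin N → ℕ) : Prop :=
  ∑ k, (dF k : ℤ) * w k = D * (∑ k, (dF k : ℤ) - N) ∧
    ∀ v, Adm M a v → D ≤ ∑ k, v k * w k

theorem lat_mem {D : ℕ} (hD : 0 < D) {w : Fin N → ℕ} (hw : Lat M a dF D w) :
    (fun k => (w k : ℚ) / D) ∈ PiA M a dF := by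
  have hDq : (0 : ℚ) < D := by exact_mod_cast hD
  refine ⟨?_, fun v hv => ?_⟩
  · have h1 : (((∑ k, (dF k : ℤ) * w k : ℤ)) : ℚ) = ((D * (∑ k, (dF k : ℤ) - N) : ℤ) : ℚ) := by
      rw [hw.1]
    push_cast at h1
    simp only [mul_div_assoc']
    rw [← Finset.sum_div, h1]
    field_simp
  · have h1 := hw.2 v hv
    simp only [mul_div_assoc']
    rw [← Finset.sum_div, le_div_iff₀ hDq, one_mul]
    exact_mod_cast h1

/-- **The lattice points compute the minima.** -/
theorem exists_lat {L δ D : ℕ} (hL : 0 < L) (hM : ∀ j, M j ∣ L) (hN : 2 ≤ N) (hδ : ∀ k, dF k ≤ δ)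
    (hd : ∀ k, 1 ≤ dF k) (hD : ∀ i, 1 ≤ i → i ≤ N.factorial * δ * L ^ (N - 1) → i ∣ D)
    (hD0 : 0 < D) (u : Fin N → ℚ) {y : Fin N → ℚ} (hy : y ∈ PiA M a dF) :
    ∃ w : Fin N → ℕ, Lat M a dF D w ∧ dotL u (fun k => (w k : ℚ)) ≤ D * dotL u y := by
  classical
  have hDq : (0 : ℚ) < D := by exact_mod_cast hD0
  have hLq : (0 : ℚ) < L := by exact_mod_cast hL
  have hdq : ∀ k, (0 : ℚ) < dF k := fun k => by exact_mod_cast hd k
  have hPi := PiA_eqL (a := a) (dF := dF) hL hM hN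
  obtain ⟨p, hp, hpu, hact⟩ := exists_vertex (v := fun (s : RedL M a L) k => (s.v k : ℚ))
    (d := fun k => (dF k : ℚ)) (κ := (((∑ k, (dF k : ℤ) - N : ℤ)) : ℚ)) hdq hLq
    (fun k => dotL_unit hL hM hN k) u (y := y) (by rw [← hPi]; exact hy)
  obtain ⟨w, hw⟩ := vertex_int (by omega) hδ hd (fun (s : RedL M a L) k => s.le k) hp hact hD
  rw [← hPi] at hp
  have hp0 : ∀ k, 0 ≤ p k := by
    intro k
    have h1 := hp.2 _ (adm_unit hL hM hN k)
    rw [Finset.sum_eq_single k] at h1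
    · rw [if_pos rfl] at h1
      by_contra hneg
      push Not at hneg
      nlinarith
    · intro i _ hi
      rw [if_neg hi, Nat.cast_zero, zero_mul]
    · intro hk
      exact absurd (Finset.mem_univ _) hk
  have hw0 : ∀ k, 0 ≤ w k := by
    intro k
    have h1 := mul_nonneg hDq.le (hp0 k)
    rw [← hw k] at h1
    exact_mod_cast h1
  obtain ⟨w', hw'⟩ : ∃ w' : Fin N → ℕ, w' = fun k => (w k).toNat := ⟨_, rfl⟩
  have hww : ∀ k, (w' k : ℚ) = D * p k := by
    intro k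
    rw [← hw k, hw']
    have h1 : (((w k).toNat : ℕ) : ℤ) = w k := Int.toNat_of_nonneg (hw0 k)
    exact_mod_cast h1
  refine ⟨w', ⟨?_, fun v hv => ?_⟩, ?_⟩
  · have h1 : (((∑ k, (dF k : ℤ) * w' k : ℤ)) : ℚ) = ((D * (∑ k, (dF k : ℤ) - N) : ℤ) : ℚ) := by
      push_cast
      rw [← hp.1, Finset.mul_sum]
      refine Finset.sum_congr rfl fun k _ => ?_
      rw [hww]
      ring
    exact_mod_cast h1
  · have h1 := mul_le_mul_of_nonneg_left (hp.2 v hv) hDq.le
    rw [mul_one, Finset.mul_sum] at h1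
    have h2 : (D : ℚ) ≤ ((∑ k, v k * w' k : ℕ) : ℚ) := by
      push_cast
      refine h1.trans (le_of_eq (Finset.sum_congr rfl fun k _ => ?_))
      rw [hww]
      ring
    exact_mod_cast h2
  · have h1 : (fun k => (w' k : ℚ)) = (D : ℚ) • p := by
      funext k
      rw [hww]
      rfl
    rw [h1, map_smul, smul_eq_mul]
    exact mul_le_mul_of_nonneg_left hpu hDq.le

/-- **Independent lattice points.** -/
theorem exists_pts {L δ D : ℕ} (hL : 0 < L) (hM : ∀ j, M j ∣ L) (hN : 2 ≤ N) (hδ : ∀ k, dF k ≤ δ)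
    (hd : ∀ k, 1 ≤ dF k) (hD : ∀ i, 1 ≤ i → i ≤ N.factorial * δ * L ^ (N - 1) → i ∣ D)
    (hD0 : 0 < D) (hne : (PiA M a dF).Nonempty) {h : ℕ}
    (hh : Module.finrank ℚ (vectorSpan ℚ (PiA M a dF)) = h) :
    ∃ w : Fin (h + 1) → Fin N → ℕ, (∀ b, Lat M a dF D (w b)) ∧
      LinearIndependent ℚ fun (b : Fin h) (k : Fin N) => (w b.succ k : ℚ) - w 0 k := by
  classical
  have hDq : (D : ℚ) ≠ 0 := by exact_mod_cast hD0.ne'
  obtain ⟨V, hV⟩ : ∃ V : Set (Fin N → ℚ),
    V = {p | ∃ w : Fin N → ℕ, Lat M a dF D w ∧ p = fun k => (w k : ℚ) / D} := ⟨_, rfl⟩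
  have hVP : V ⊆ PiA M a dF := by
    rw [hV]
    rintro p ⟨w, hw, rfl⟩
    exact lat_mem hD0 hw
  have key : ∀ (u : Fin N → ℚ), ∀ y ∈ PiA M a dF, ∃ p ∈ V, dotL u p ≤ dotL u y := by
    intro u y hy
    obtain ⟨w, hw, hle⟩ := exists_lat hL hM hN hδ hd hD hD0 u hy
    refine ⟨fun k => (w k : ℚ) / D, by rw [hV]; exact ⟨w, hw, rfl⟩, ?_⟩
    have h1 : (fun k => (w k : ℚ) / D) = (D : ℚ)⁻¹ • fun k => (w k : ℚ) := by
      funext k
      rw [Pi.smul_apply, smul_eq_mul, div_eq_mul_inv, mul_comm]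
    have hpos : (0 : ℚ) < D := by exact_mod_cast hD0
    rw [h1, map_smul, smul_eq_mul, inv_mul_eq_div, div_le_iff₀ hpos, mul_comm]
    exact hle
  obtain ⟨y1, hy1⟩ := hne
  obtain ⟨p0, hp0, -⟩ := key 0 y1 hy1
  have hspan : vectorSpan ℚ V = vectorSpan ℚ (PiA M a dF) := by
    apply le_antisymm (vectorSpan_mono ℚ hVP)
    intro x hx
    by_contra hxV
    obtain ⟨f, hfx, hf⟩ := Submodule.exists_dual_map_eq_bot_of_notMem hxV inferInstance
    obtain ⟨u, hu⟩ := exists_dot f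
    have hc : ∀ p ∈ V, dotL u p = dotL u p0 := by
      intro p hp
      have h1 : p - p0 ∈ vectorSpan ℚ V := vsub_mem_vectorSpan ℚ hp hp0
      have h2 : f (p - p0) ∈ (vectorSpan ℚ V).map f := Submodule.mem_map_of_mem h1
      rw [hf, Submodule.mem_bot, map_sub, hu, hu] at h2
      linarith
    have hc2 : ∀ y ∈ PiA M a dF, dotL u y = dotL u p0 := by
      intro y hy
      obtain ⟨p, hp, h1⟩ := key u y hy
      obtain ⟨p', hp', h2⟩ := key (-u) y hy
      rw [hc p hp] at h1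
      have h3 : ∀ z, dotL (-u) z = - dotL u z := by
        intro z
        rw [dotL_apply, dotL_apply, ← Finset.sum_neg_distrib]
        exact Finset.sum_congr rfl fun k _ => by rw [Pi.neg_apply]; ring
      rw [h3, h3, hc p' hp'] at h2
      linarith
    apply hfx
    rw [vectorSpan_def] at hx
    have h1 : Submodule.span ℚ (PiA M a dF -ᵥ PiA M a dF) ≤ LinearMap.ker f := by
      rw [Submodule.span_le]
      rintro z ⟨y, hy, y', hy', rfl⟩
      change f (y - y') = 0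
      rw [map_sub, hu, hu, hc2 y hy, hc2 y' hy', sub_self]
    exact h1 hx
  rw [← hspan, vectorSpan_eq_span_vsub_set_right ℚ hp0] at hh
  obtain ⟨b, hb1, hb2, hb3⟩ := exists_linearIndependent ℚ ((fun x => x -ᵥ p0) '' V)
  have hfin : Finite b := hb3.finite
  have : Fintype b := Fintype.ofFinite b
  have hcard : Fintype.card b = h := by
    have h2 := finrank_span_eq_card hb3
    rw [Subtype.range_coe, hb2, hh] at h2
    exact h2.symm
  let e : Fin h ≃ b := (Fintype.equivFinOfCardEq hcard).symm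
  have hmem : ∀ i : Fin h, ∃ w : Fin N → ℕ, Lat M a dF D w ∧
      (e i : Fin N → ℚ) = (fun k => (w k : ℚ) / D) - p0 := by
    intro i
    obtain ⟨x, hx, hx2⟩ := hb1 (e i).2
    rw [hV] at hx
    obtain ⟨w, hw, rfl⟩ := hx
    exact ⟨w, hw, hx2.symm⟩
  choose w hw1 hw2 using hmem
  rw [hV] at hp0
  obtain ⟨w0, hw0, hp0w⟩ := hp0
  refine ⟨Fin.cases w0 w, fun i => ?_, ?_⟩
  · refine Fin.cases ?_ (fun i => ?_) i
    · exact hw0
    · exact hw1 i
  · have h1 : LinearIndependent ℚ fun i : Fin h => (e i : Fin N → ℚ) := hb3.comp e e.injective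
    have h2 := h1.units_smul fun _ => Units.mk0 (D : ℚ) hDq
    have h3 : (fun (i : Fin h) (k : Fin N) => ((w i k : ℕ) : ℚ) - w0 k) =
        (fun _ : Fin h => Units.mk0 (D : ℚ) hDq) • fun i : Fin h => (e i : Fin N → ℚ) := by
      funext i k
      rw [Pi.smul_apply', hw2 i, hp0w]
      change _ = (D : ℚ) * (((w i k : ℕ) : ℚ) / D - (w0 k : ℚ) / D)
      field_simp
    change LinearIndependent ℚ fun (i : Fin h) (k : Fin N) => ((w i k : ℕ) : ℚ) - w0 k
    rw [h3]
    exact h2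

end

end Pool.Agent.H172.EF
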